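import Pool.Agent.Helper42.LT.SKb
import Pool.Agent.Helper14.W4.Lk4
import Pool.Agent.NFF.F3KillA
import Pool.Agent.TLO.Lres

set_option autoImplicit false

/-!
# NFA: the Steinberg symbols kill `H^{n-2}(Γ(F, n) ⊗ ℚ)` for every field `F` (definitions)

`SU`: the units of `K(t)` which are products of constants and of `t - a`, `a ∈ K`; `Sx`: `x` and
`1 - x` are such (or zero); `S31`: the elements of `B_3 ⊗ K(t)^*` made of such; `LW j`: boundaries,
constants and `(t - a) ∧ constants` in `B_3 ⊗ Λ^{j+1}`; `kk x`: the element with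
`d (kk x) = 2 {t}_2 ⊗ x ∧ (1 - x) - 2 {x}_2 ⊗ t ∧ (1 - t)`.
-/

noncomputable section

open Polynomial TensorProduct
open scoped Classical

namespace NFA

open Helper14.Gon Helper14.W4 Helper42.LT

universe u v w

section
variable (K : Type u) [Field K]

/-- the split units -/
def SU : AddSubgroup (Additive (RatFunc K)ˣ) :=
  AddSubgroup.closure (Set.range (rU : Additive Kˣ → Additive (RatFunc K)ˣ) ∪ Set.range (ee : K → _))

end

section
variable {K : Type u} [Field K]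

/-- `x` and `1 - x` are split or zero -/
def Sx (x : RatFunc K) : Prop := lg x ∈ SU K ∧ lg (1 - x) ∈ SU K

variable (K) in
/-- split elements of `B_3 ⊗ K(t)^*` -/
def S31 : Submodule ℚ (Cx 3 1 (RatFunc K)) :=
  Submodule.span ℚ {z | ∃ (x : RatFunc K) (g : Additive (RatFunc K)ˣ), Sx x ∧ g ∈ SU K ∧
    z = GG 3 (some x) g}

variable (K) in
/-- split elements of `B_4` -/
def S40 : Submodule ℚ (Cx 4 0 (RatFunc K)) :=
  Submodule.span ℚ {z | ∃ x : RatFunc K, Sx x ∧ z = PB 4 0 (cl 4 (some x)) (u0 (RatFunc K))}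

variable (K) in
/-- boundaries, constants, and `(t - a) ∧ constants` -/
def LW (j : ℕ) : Submodule ℚ (Cx 3 (j + 1) (RatFunc K)) :=
  LinearMap.range (dC 1 j : Cx 4 j (RatFunc K) →ₗ[ℚ] _) ⊔
    LinearMap.range (rC 1 (j + 1) : Cx 3 (j + 1) K →ₗ[ℚ] _) ⊔
    Submodule.span ℚ {z | ∃ (a : K) (y : Cx 3 j K), z = wC 3 j (ee a) (rC 1 j y)}

variable (K) in
/-- the variable -/
def yt : RatFunc K := fy (0 : K) 1

/-- the element with `d (kk x) = 2 {t}_2 ⊗ x ∧ (1 - x) - 2 {x}_2 ⊗ t ∧ (1 - t)` -/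
def kk (x : K) : Cx 3 1 (RatFunc K) :=
  if x = 0 ∨ x = 1 then 0 else
    GG 3 (some (RatFunc.C x * (1 - yt K) ^ 2 / (yt K * (1 - RatFunc.C x) ^ 2)))
        (lg (1 - yt K) - lg (1 - RatFunc.C x)) -
      GG 3 (some (RatFunc.C x * yt K)) (lg (1 - yt K) - lg (1 - RatFunc.C x)) +
      GG 3 (some (RatFunc.C x / yt K)) (lg (1 - yt K) - lg (1 - RatFunc.C x)) -
      (2 : ℚ) • GG 3 (some (RatFunc.C x * (1 - yt K) / (yt K * (1 - RatFunc.C x))))
        (lg (1 - yt K) - lg (1 - RatFunc.C x)) -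
      (2 : ℚ) • (GG 3 (some (RatFunc.C x * (1 - yt K) / (RatFunc.C x - 1))) (lg (yt K)) -
        GG 3 (some (1 - (RatFunc.C x)⁻¹)) (lg (yt K))) +
      (2 : ℚ) • (GG 3 (some ((1 - yt K) / (yt K * (RatFunc.C x - 1)))) (lg (RatFunc.C x)) -
        GG 3 (some (RatFunc.C x * yt K)) (lg (RatFunc.C x)) -
        GG 3 (some (1 - (yt K)⁻¹)) (lg (RatFunc.C x)))

/-- `kk` on `P^1` -/
def kP : P1 K → Cx 3 1 (RatFunc K) := fun x => x.elim 0 kk

end

end NFA
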