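import Pool.Agent.NFA.N7b
import Pool.Agent.NFA.KillOf
import Pool.Agent.NFF.HVan

set_option autoImplicit false

/-!
# NFA-Fin: the Steinberg symbols kill `H^{n-2}(Γ(F, n) ⊗ ℚ)` for every field `F`
-/

namespace NFA

open Helper14.Gon Helper14.W4 Helper42.LT Helper14.Loc

universe u

variable {K : Type u} [Field K]

private lemma fi_sup {j : ℕ} {z : Cx 3 (j + 1) (RatFunc K)}
    (hz : z ∈ Submodule.span ℚ {z | ∃ (a : K) (y : Cx 3 j K), z = wC 3 j (ee a) (rC 1 j y)}) :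
    ∃ (s : Finset K) (za : K → Cx 3 j K), z = ∑ a ∈ s, wC 3 j (ee a) (rC 1 j (za a)) := by
  classical
  have h : z ∈ ⨆ a : K, LinearMap.range (wC (1 + 2) j (ee a) ∘ₗ
      (rC 1 j : Cx (1 + 2) j K →ₗ[ℚ] _)) := by
    refine (Submodule.span_le.2 ?_) hz
    rintro _ ⟨a, y, rfl⟩
    exact Submodule.mem_iSup_of_mem a ⟨y, rfl⟩
  rw [Submodule.mem_iSup_iff_exists_finsupp] at h
  obtain ⟨f, hf, h⟩ := h
  choose g hg using hf
  refine ⟨f.support, g, ?_⟩
  rw [← h, Finsupp.sum]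
  exact Finset.sum_congr rfl fun a _ => (hg a).symm

private lemma fi_mem {j : ℕ} {z : Cx 3 (j + 1) (RatFunc K)} (hz : z ∈ LW K j) :
    ∃ (z0 : Cx 3 (j + 1) K) (s : Finset K) (za : K → Cx 3 j K) (w : Cx 4 j (RatFunc K)),
      z = rC 1 (j + 1) z0 + ∑ a ∈ s, wC 3 j (ee a) (rC 1 j (za a)) + dC 1 j w := by
  obtain ⟨x, hx, y, hy, rfl⟩ := Submodule.mem_sup.1 hz
  obtain ⟨_, ⟨w, rfl⟩, _, ⟨z0, rfl⟩, rfl⟩ := Submodule.mem_sup.1 hx
  obtain ⟨s, za, rfl⟩ := fi_sup hy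
  refine ⟨z0, s, za, w, ?_⟩
  abel

private lemma fi_wC_add {F : Type u} [Field F] {k j : ℕ} (u v : Additive Fˣ) (z : Cx k j F) :
    wC k j (u + v) z = wC k j u z + wC k j v z := by
  rw [wC, wT_add, mapT_add]
  rfl

private lemma fi_wC_neg_one {F : Type u} [Field F] {k j : ℕ} (z : Cx k j F) :
    wC k j (lg (-1 : F)) z = 0 := by
  rw [wC, wT_neg_one, mapT_zero]

private lemma fi_us (F : Type u) [Field F] (k j : ℕ) (u : MU F) (z : CC k j F) :
    eC F k (j + 1) (us k j (RingHom.id F) u z) = wC (k + 2) j u (eC F k j z) := by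
  have : (eC F k (j + 1)).toLinearMap ∘ₗ us k j (RingHom.id F) u =
      (wC (k + 2) j u) ∘ₗ (eC F k j).toLinearMap := by
    refine CC_ext fun x v => ?_
    rw [LinearMap.comp_apply, LinearMap.comp_apply, LinearEquiv.coe_coe,
      LinearEquiv.coe_coe, us_gn, eC_gn, eC_gn, ← PB_gen, ← PB_gen, wC_PB, wT_toQ, wL_ιMulti]
    have e1 : Option.map (RingHom.id F) x = x := by cases x <;> rfl
    have e2 : (fun i => mu (RingHom.id F) (v i)) = v := by
      funext i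
      rfl
    rw [e1, e2]
    rfl
  exact LinearMap.congr_fun this z

theorem mod_one_all (F : Type u) [Field F] : Pool.Agent.NFF.Mod F 1 := by
  intro x h0 h1 j z hz
  rw [mem_BC, fi_us, fi_us]
  have hy : (elx (some x : P1 F) : MU F) = lg x := rfl
  have hy' : (ely (some x : P1 F) : MU F) = lg (1 - x) := rfl
  obtain ⟨z0, s, za, w, hZ⟩ := fi_mem (tt_mem_LW j (eC F 1 j z) ((mem_ZC 1 j z).1 hz))
  have h7 := Pool.Agent.NFA.kill_of 1 j (eC F 1 j z) s z0 za w hZ x h0 h1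
  have h8 : (1 - x : F) = (-1) * (x - 1) := by ring
  rw [hy, hy', h8, lg_mul (neg_ne_zero.2 one_ne_zero) (sub_ne_zero.2 h1), fi_wC_add,
    fi_wC_neg_one, zero_add]
  exact h7

end NFA
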