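import Pool.Agent.NFA.Defs

set_option autoImplicit false

/-!
# NFA: the symbols `{A} ⊗ v` and `{A} ⊗ v ∧ w` as additive maps
-/

noncomputable section

open Polynomial TensorProduct
open scoped Classical

namespace NFA

open Helper14.Gon Helper14.W4 Helper42.LT

universe u

section
variable {F : Type u} [Field F]

private lemma tn_zero2 (k j : ℕ) : tn k j (0 : Tx j F) = 0 := by
  have h := map_zero (tnL k j (F := F))
  exact h

/-- `v ↦ (b ↦ b ⊗ v)` -/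
def T1 (k : ℕ) : Additive Fˣ →+ (Cx k 0 F →ₗ[ℚ] Cx k 1 F) :=
  AddMonoidHom.mk' (fun v => tn k 1 (wT 0 v (u0 F))) (fun v v' => by
    refine LinearMap.ext fun z => ?_
    rw [wT_add, LinearMap.add_apply, tn_add, LinearMap.add_apply])

lemma T1_apply (k : ℕ) (v : Additive Fˣ) : T1 k v = tn k 1 (wT 0 v (u0 F)) := rfl

/-- `v, w ↦ (b ↦ b ⊗ v ∧ w)` -/
def T2 (k : ℕ) : Additive Fˣ →+ Additive Fˣ →+ (Cx k 0 F →ₗ[ℚ] Cx k 2 F) :=
  AddMonoidHom.mk' (fun v => AddMonoidHom.mk' (fun w => tn k 2 (W2 v w)) (fun w w' => by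
    refine LinearMap.ext fun z => ?_
    rw [map_add, tn_add, LinearMap.add_apply])) (fun v v' => by
    refine AddMonoidHom.ext fun w => LinearMap.ext fun z => ?_
    change tn k 2 (W2 (v + v') w) z = tn k 2 (W2 v w) z + tn k 2 (W2 v' w) z
    rw [map_add, AddMonoidHom.add_apply, tn_add])

lemma T2_apply (k : ℕ) (v w : Additive Fˣ) : T2 k v w = tn k 2 (W2 v w) := rfl

lemma T2_self (k : ℕ) (v : Additive Fˣ) : T2 k v v = 0 := by
  rw [T2_apply, W2_self, tn_zero2]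

lemma T2_swap (k : ℕ) (v w : Additive Fˣ) : T2 k v w = - T2 k w v := by
  have h := T2_self k (v + w)
  simp only [map_add, AddMonoidHom.add_apply, T2_self] at h
  rw [zero_add, add_zero] at h
  exact eq_neg_of_add_eq_zero_right h

lemma T2_m1 (k : ℕ) (v : Additive Fˣ) : T2 k (lg (-1 : F)) v = 0 := by
  rw [T2_apply, W2_m1, tn_zero2]

lemma T2_m1' (k : ℕ) (v : Additive Fˣ) : T2 k v (lg (-1 : F)) = 0 := by
  rw [T2_swap, T2_m1, neg_zero]

/-- the differential of `{A} ⊗ v` -/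
lemma dC_T1 (A : P1 F) (v : Additive Fˣ) :
    dC 0 1 (T1 3 v (b3 A)) = T2 2 (lgP A) v (bb A) := by
  rw [T1_apply, Helper42.LT.b3, tn_PB]
  have e := dC_PB 0 1 A (wT 0 v (u0 _))
  rw [T2_apply, bb, tn_PB, W2_apply]
  exact e

/-- `{A} ⊗ A ∧ v` is a coboundary -/
lemma T2_mem (A : P1 F) (v : Additive Fˣ) :
    T2 3 (lgP A) v (b3 A) ∈ LinearMap.range (dC 1 1 : Cx 4 1 F →ₗ[ℚ] _) := by
  refine ⟨PB 4 1 (cl 4 A) (wT 0 v (u0 _)), ?_⟩
  have e := dC_PB 1 1 A (wT 0 v (u0 _))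
  rw [T2_apply, Helper42.LT.b3, tn_PB, W2_apply]
  exact e

lemma wC_T1 (k : ℕ) (v w : Additive Fˣ) (z : Cx k 0 F) :
    wC k 1 v (T1 k w z) = T2 k v w z := by
  rw [T1_apply, T2_apply]
  refine Cx_ind (fun z => wC k 1 v (tn k 1 (wT 0 w (u0 F)) z) = tn k 2 (W2 v w) z)
    (by simp) (fun a b ha hb => by simp only [map_add, ha, hb]) (fun x υ => ?_) z
  rw [tn_PB', tn_PB', map_smul, wC_PB, W2_apply]

end


section
variable {F : Type u} [Field F]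

lemma GG_T1 (A : P1 F) (g : Additive Fˣ) : GG 3 A g = T1 3 g (b3 A) := by
  rw [T1_apply, Helper42.LT.b3, tn_PB]
  rfl

lemma PB_T2 (k : ℕ) (b : B k F) (v w : Additive Fˣ) :
    PB k 2 b (W2 v w) = T2 k v w (PB k 0 b (u0 F)) := by
  rw [T2_apply, tn_PB]

/-- the class of `1 - 1/x` -/
lemma lg_inv1 {y : F} (h0 : y ≠ 0) (h1 : 1 - y ≠ 0) :
    lg (1 - y⁻¹) = lg (-1) + lg (1 - y) - lg y := by
  have e : 1 - y⁻¹ = -(1 - y) / y := by field_simp; ring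
  rw [e, lg_div (neg_ne_zero.2 h1) h0, lg_neg' h1]

/-- `{1 - 1/x} = {x}` in `B_2` -/
lemma bb_inv1 (y : F) : bb (some (1 - y⁻¹)) = bb (some y) := by
  rw [eq_neg_of_add_eq_zero_right (bb_sub y⁻¹),
    eq_neg_of_add_eq_zero_right (bb_inv y), neg_neg]

end

section
variable {K : Type u} [Field K]

lemma kapA_Xne (x : K) : (RatFunc.X - RatFunc.C x : RatFunc K) ≠ 0 := by
  rw [← RatFunc.algebraMap_X, ← RatFunc.algebraMap_C, ← map_sub]
  exact RatFunc.algebraMap_ne_zero (X_sub_C_ne_zero x)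

lemma kapA_Cne {x : K} (hx : x ≠ 0) : (RatFunc.C x : RatFunc K) ≠ 0 :=
  (_root_.map_ne_zero RatFunc.C).2 hx

lemma kapA_Cne' {x : K} (hx : x ≠ 1) : (1 - RatFunc.C x : RatFunc K) ≠ 0 := by
  rw [← map_one RatFunc.C, ← map_sub]
  exact kapA_Cne (sub_ne_zero.2 (Ne.symm hx))

lemma kapA_yt : yt K = RatFunc.X := by
  rw [yt, fy, map_zero, sub_zero, sub_zero, map_one, div_one]

lemma kapA_yt_ne : yt K ≠ 0 := by
  rw [kapA_yt]; exact RatFunc.X_ne_zero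

lemma kapA_yt_ne' : 1 - yt K ≠ 0 := by
  have h := kapA_Xne (1 : K)
  rw [map_one] at h
  rw [kapA_yt, ← neg_sub]
  exact neg_ne_zero.2 h

/-- the classes of the arguments -/
lemma kapA_lg {x : K} (hx0 : x ≠ 0) (hx1 : x ≠ 1) :
    lg (RatFunc.C x * (1 - yt K) ^ 2 / (yt K * (1 - RatFunc.C x) ^ 2)) =
      lg (RatFunc.C x) + (2 : ℤ) • lg (1 - yt K) -
        (lg (yt K) + (2 : ℤ) • lg (1 - RatFunc.C x)) ∧
    lg (RatFunc.C x * yt K) = lg (RatFunc.C x) + lg (yt K) ∧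
    lg (RatFunc.C x / yt K) = lg (RatFunc.C x) - lg (yt K) ∧
    lg (RatFunc.C x * (1 - yt K) / (yt K * (1 - RatFunc.C x))) =
      lg (RatFunc.C x) + lg (1 - yt K) - (lg (yt K) + lg (1 - RatFunc.C x)) ∧
    lg (RatFunc.C x * (1 - yt K) / (RatFunc.C x - 1)) =
      lg (RatFunc.C x) + lg (1 - yt K) - (lg (-1) + lg (1 - RatFunc.C x)) ∧
    lg ((1 - yt K) / (1 - RatFunc.C x)) = lg (1 - yt K) - lg (1 - RatFunc.C x) ∧
    lg ((1 - yt K) / (yt K * (RatFunc.C x - 1))) =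
      lg (1 - yt K) - (lg (yt K) + (lg (-1) + lg (1 - RatFunc.C x))) := by
  have nx := kapA_Cne hx0
  have ny := kapA_yt_ne (K := K)
  have ny' := kapA_yt_ne' (K := K)
  have n1 := kapA_Cne' hx1
  have n2 : (RatFunc.C x - 1 : RatFunc K) ≠ 0 := by
    rw [← neg_sub]; exact neg_ne_zero.2 n1
  have e2 : lg (RatFunc.C x - 1 : RatFunc K) = lg (-1) + lg (1 - RatFunc.C x) := by
    rw [← neg_sub, lg_neg' n1]
  refine ⟨?_, ?_, ?_, ?_, ?_, ?_, ?_⟩
  · rw [lg_div (mul_ne_zero nx (pow_ne_zero 2 ny')) (mul_ne_zero ny (pow_ne_zero 2 n1)),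
      lg_mul nx (pow_ne_zero 2 ny'), lg_mul ny (pow_ne_zero 2 n1), lg_pow _ two_ne_zero,
      lg_pow _ two_ne_zero]
    rfl
  · rw [lg_mul nx ny]
  · rw [lg_div nx ny]
  · rw [lg_div (mul_ne_zero nx ny') (mul_ne_zero ny n1), lg_mul nx ny', lg_mul ny n1]
  · rw [lg_div (mul_ne_zero nx ny') n2, lg_mul nx ny', e2]
  · rw [lg_div ny' n1]
  · rw [lg_div ny' (mul_ne_zero ny n2), lg_mul ny n2, e2]

end

end NFA
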