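import Pool.Agent.NFA.Defs
import Pool.Agent.TGF.S
import Pool.Agent.GD3.BInj

set_option autoImplicit false

/-!
# NFA-N1: five-term functions on any field, and their extension to a bigger field
-/

noncomputable section

open Polynomial TensorProduct
open scoped Classical

namespace NFA

open Helper14.Gon Helper14.W4 Helper42.LT Helper14.Loc QPL TGF GD3

universe u v w

section
variable {K L : Type u} [Field K] [Field L]

private lemma n1_u0 (φ : K →+* L) : resT 0 φ (u0 K) = u0 L := by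
  rw [← e0_inj (resT 0 φ (u0 K))]
  have h : e0 L (resT 0 φ (u0 K)) = 1 := by
    change e0 L (resT 0 φ (toQ _)) = 1
    rw [resT_toQ]
    change e0 L (toQ (exteriorPower.map 0 _ _)) = 1
    rw [exteriorPower.map_apply_ιMulti]
    exact e0_dm _
  rw [h, one_smul]

private lemma n1_resC (φ : K →+* L) (x : K) :
    resC 1 0 φ (bb (some x)) = bb (some (φ x)) := by
  have h1 := resC_c2 0 φ (bx x (u0 K))
  rw [c2_bx, mX_bx, c2_bx, n1_u0] at h1
  exact h1

private lemma n1_inj (φ : K →+* L) : Function.Injective (resC 1 0 φ) := by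
  rw [injective_iff_map_eq_zero]
  intro z hz
  have h1 : rs 0 0 φ ((eC K 0 0).symm z) = 0 := by
    apply (eC L 0 0).injective
    rw [rs_eq, LinearEquiv.apply_symm_apply, hz, map_zero]
  have h2 := (injective_iff_map_eq_zero _).1 (rs0_inj 0 φ) _ h1
  exact (LinearEquiv.map_eq_zero_iff _).1 h2

private lemma n1_arg {F : Type u} [Field F] {u w : F} (hu0 : u ≠ 0) (hu1 : u ≠ 1) (hw0 : w ≠ 0)
    (hw1 : w ≠ 1) : (1 - u⁻¹) / (1 - w⁻¹) = (u - 1) * w / (u * (w - 1)) := by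
  have h1 : u - 1 ≠ 0 := sub_ne_zero.2 hu1
  have h2 : w - 1 ≠ 0 := sub_ne_zero.2 hw1
  have h3 : 1 - w⁻¹ = (w - 1) / w := by field_simp
  have h4 : 1 - u⁻¹ = (u - 1) / u := by field_simp
  rw [h3, h4]
  field_simp

private lemma n1_arg' {F : Type u} [Field F] {u w : F} (hw1 : w ≠ 1) :
    (1 - u) / (1 - w) = (u - 1) / (w - 1) := by
  have h2 : w - 1 ≠ 0 := sub_ne_zero.2 hw1
  have h3 : 1 - w ≠ 0 := sub_ne_zero.2 (Ne.symm hw1)
  field_simp
  ring

private lemma n1_fv {F : Type u} [Field F] {l : F → ℚ} (h : Five l) :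
    ∃ ψ : SRG.FV F ℚ, ∀ x, ψ.g x = l x :=
  ⟨{ g := l
     zero := h.zero
     one := h.one
     inv := h.inv
     sub := h.sub
     five := fun u w hu0 hu1 hw0 hw1 huw => by
       have h1 := h.five u w hu0 hu1 hw0 hw1 huw
       have h2 := h.inv (u / w)
       rw [inv_div] at h2
       rw [n1_arg hu0 hu1 hw0 hw1, n1_arg' hw1, h2]
       linarith }, fun _ => rfl⟩

private lemma n1_five {F : Type u} [Field F] (ψ : SRG.FV F ℚ) : Five ψ.g where
  inv := ψ.inv
  sub := ψ.sub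
  five u w hu0 hu1 hw0 hw1 huw := by
    have h1 := ψ.five u w hu0 hu1 hw0 hw1 huw
    have h2 := ψ.inv (u / w)
    rw [inv_div] at h2
    rw [n1_arg hu0 hu1 hw0 hw1, n1_arg' hw1, h2] at h1
    linarith

/-- the functional on `B_2(K)` of a five-term function, `K` any field -/
theorem lam_ex {K : Type u} [Field K] {l : K → ℚ} (h : Five l) :
    ∃ θ : Cx 2 0 K →ₗ[ℚ] ℚ, ∀ (x : P1 K) (ω : Tx 0 K),
      θ (PB 2 0 (cl 2 x) ω) = lP l x * e0 K ω := by
  obtain ⟨ψ, hψ⟩ := n1_fv h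
  obtain ⟨θ, hθ⟩ := SRG.lin_of_fv ψ
  refine ⟨θ, fun x ω => ?_⟩
  have h1 : PB 2 0 (cl 2 x) ω = e0 K ω • bb x := by
    rw [bb, ← map_smul, e0_inj]
  rw [h1, map_smul, smul_eq_mul, mul_comm]
  congr 1
  rcases x with _ | x
  · change θ (bb none) = 0
    rw [bb_inf, map_zero]
  · rw [hθ, hψ]
    rfl

/-- extension of five-term functions -/
theorem ext_five {K L : Type u} [Field K] [Field L] (φ : K →+* L) {l : K → ℚ}
    (h : Five l) : ∃ l' : L → ℚ, Five l' ∧ ∀ x, l' (φ x) = l x := by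
  obtain ⟨ψ, hψ⟩ := n1_fv h
  obtain ⟨θ, hθ⟩ := SRG.lin_of_fv ψ
  obtain ⟨g, hg⟩ := LinearMap.exists_leftInverse_of_injective (resC 1 0 φ)
    (LinearMap.ker_eq_bot.2 (n1_inj φ))
  obtain ⟨ψ', hψ'⟩ := SRG.fv_of_lin (θ ∘ₗ g)
  refine ⟨ψ'.g, n1_five ψ', fun x => ?_⟩
  have h1 := LinearMap.congr_fun hg (bb (some x))
  rw [LinearMap.comp_apply, LinearMap.id_apply, n1_resC] at h1
  rw [hψ', LinearMap.comp_apply, h1, hθ, hψ]

end

end NFA
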