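import Pool.Agent.NFA.N1

set_option autoImplicit false

/-!
# NFA-N2: reciprocity for a pair of points and a split function, any field

Base change to the algebraic closure: divisors of split units, the kernels `kap` and the values at
points are compatible with field extensions; then `kap_dv` over the closure for the extension of `l`.
-/

noncomputable section

open Polynomial TensorProduct
open scoped Classical

namespace NFA

open Helper14.Gon Helper14.W4 Helper42.LT

universe u v w

section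
variable {K : Type u} [Field K]

lemma n2_am {L : Type u} [Field L] (φ : K →+* L) (A : K[X]) :
    TLO.rmK φ (algebraMap K[X] (RatFunc K) A) =
      algebraMap L[X] (RatFunc L) (A.map φ) := by
  have h1 := RatFunc.map_apply_div (mapRingHom φ)
    (nonZeroDivisors_le_comap_nonZeroDivisors_of_injective _ (map_injective φ φ.injective)) A 1
  rw [map_one, map_one, map_one, div_one, div_one] at h1
  exact h1

lemma n2_C {L : Type u} [Field L] (φ : K →+* L) (c : K) :
    TLO.rmK φ (RatFunc.C c) = RatFunc.C (φ c) := by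
  rw [← RatFunc.algebraMap_C, n2_am, Polynomial.map_C, RatFunc.algebraMap_C]

lemma n2_X {L : Type u} [Field L] (φ : K →+* L) :
    TLO.rmK φ RatFunc.X = RatFunc.X := by
  rw [← RatFunc.algebraMap_X, n2_am, Polynomial.map_X, RatFunc.algebraMap_X]

lemma n2_ee {L : Type u} [Field L] (φ : K →+* L) (a : K) :
    resU (TLO.rmK φ) (ee a) = ee (φ a) := by
  rw [ee, resU_lg, map_sub, n2_C, n2_X, ee]

lemma n2_rU {L : Type u} [Field L] (φ : K →+* L) (κ : Additive Kˣ) :
    resU (TLO.rmK φ) (rU κ) = rU (resU φ κ) := by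
  have hv : κ = lg ((κ.toMul : K)) := (lg_unit κ.toMul).symm
  rw [hv, rU, resU_lg, resU_lg, resU_lg, rU, resU_lg, n2_C]

lemma n2_dv {L : Type u} [Field L] (φ : K →+* L) {v : Additive (RatFunc K)ˣ}
    (hv : v ∈ SU K) : dv (resU (TLO.rmK φ) v) = Finsupp.lmapDomain ℚ ℚ φ (dv v) := by
  refine AddSubgroup.closure_induction (p := fun v _ => dv (resU (TLO.rmK φ) v) =
    Finsupp.lmapDomain ℚ ℚ φ (dv v)) ?_ ?_ ?_ ?_ hv
  · rintro v (⟨κ, rfl⟩ | ⟨a, rfl⟩)
    · rw [n2_rU, dv_rU, dv_rU, map_zero]
    · rw [n2_ee, dv_ee, dv_ee, Finsupp.lmapDomain_apply, Finsupp.mapDomain_single]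
  · rw [map_zero, map_zero, map_zero, map_zero]
  · intro a b _ _ ha hb
    rw [map_add, map_add, map_add, map_add, ha, hb]
  · intro a _ ha
    rw [map_neg, map_neg, map_neg, map_neg, ha]

lemma n2_kap {L : Type u} [Field L] (φ : K →+* L) {l : K → ℚ} {l' : L → ℚ}
    (hl : ∀ x, l' (φ x) = l x) (a b : K) (p q : K →₀ ℚ) :
    kap l' (φ a) (φ b) (Finsupp.lmapDomain ℚ ℚ φ p) (Finsupp.lmapDomain ℚ ℚ φ q) =
      kap l a b p q := by
  have h : ((kap l' (φ a) (φ b)).compl₁₂ (Finsupp.lmapDomain ℚ ℚ φ)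
      (Finsupp.lmapDomain ℚ ℚ φ)) = kap l a b := by
    refine bil_ext fun p q => ?_
    rw [LinearMap.compl₁₂_apply, Finsupp.lmapDomain_apply, Finsupp.lmapDomain_apply,
      Finsupp.mapDomain_single, Finsupp.mapDomain_single, kap_single, kap_single, ← hl, ← hl,
      map_div₀, map_div₀, map_sub, map_sub, map_sub]
  exact congrArg (fun T => T p q) h

lemma n2_spec {L : Type u} [Field L] (φ : K →+* L) (a : K) (f : RatFunc K) :
    spec (φ a) (some (TLO.rmK φ f)) = (spec a (some f)).map φ := by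
  obtain ⟨p, q, hq, hpq, e⟩ := exists_rep a f
  have hq' : q.map φ ≠ 0 := (Polynomial.map_ne_zero_iff φ.injective).2 hq
  have hpq' : (p.map φ).eval (φ a) ≠ 0 ∨ (q.map φ).eval (φ a) ≠ 0 := by
    rw [eval_map_apply, eval_map_apply]
    exact hpq.imp (fun h => (_root_.map_ne_zero φ).2 h) (fun h => (_root_.map_ne_zero φ).2 h)
  rw [e, map_div₀, n2_am, n2_am, spec_div _ _ _ hq' hpq', spec_div _ _ _ hq hpq,
    eval_map_apply, eval_map_apply]
  by_cases h : q.eval a = 0
  · rw [if_pos h, if_pos (by rw [h, map_zero])]; rfl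
  · rw [if_neg h, if_neg (fun h' => h ((_root_.map_eq_zero φ).1 h'))]
    rw [← map_div₀]
    rfl

lemma n2_lP {L : Type u} [Field L] (φ : K →+* L) {l : K → ℚ} {l' : L → ℚ}
    (hl : ∀ x, l' (φ x) = l x) (x : P1 K) : lP l' (x.map φ) = lP l x := by
  rcases x with _ | x
  · rfl
  · exact hl x

/-- reciprocity for a pair of points and a split function -/
theorem kap_dv_split {l : K → ℚ} (h : Five l) (a b : K) {f : RatFunc K} (hf : Sx f) :
    kap l a b (dv (lg (1 - f))) (dv (lg f)) =
      lP l (spec a (some f)) - lP l (spec b (some f)) := by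
  obtain ⟨l', h', hl⟩ := ext_five (algebraMap K (AlgebraicClosure K)) h
  have h1 := kap_dv h' (algebraMap K (AlgebraicClosure K) a) (algebraMap K (AlgebraicClosure K) b)
    (TLO.rmK (algebraMap K (AlgebraicClosure K)) f)
  have e : 1 - TLO.rmK (algebraMap K (AlgebraicClosure K)) f =
      TLO.rmK (algebraMap K (AlgebraicClosure K)) (1 - f) := by rw [map_sub, map_one]
  rw [e, ← resU_lg, ← resU_lg, n2_dv _ hf.1, n2_dv _ hf.2, n2_kap _ hl, n2_spec, n2_spec,
    n2_lP _ hl, n2_lP _ hl] at h1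
  exact h1

end

end NFA
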