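import Pool.Agent.NFA.N2

set_option autoImplicit false

/-!
# NFA-N3a: forms which kill the split functions

PLAN.  Copy of Helper14/W4/Lk.lean (`KF.poly`, `H1_of`, `H2_of`, `sol_Pol`) and of the end of
Helper14/W4/Lk3.lean (`kab_dv`, `KP_KF`, `Pol_KP`; `lam_Pol_KP` is general) with `KF` replaced by `KFs` (split
functions only) and `kap_dv` by `kap_dv_split`.  `poly`: in `H1_of`, `H2_of` the polynomials `A`, `B`, `C` are products
of a constant and of `ell p`, whose `lg` is in `SU K` (`ell p = C p.2 * (X - C (p.1 / p.2))` or a constant).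
-/

noncomputable section

open Polynomial TensorProduct
open scoped Classical

namespace NFA

open Helper14.Gon Helper14.W4 Helper42.LT

universe u v w

variable {K : Type u} [Field K]

/-- the form kills the split functions -/
def KFs (Φ : V4 K) : Prop :=
  ∀ f : RatFunc K, f ≠ 0 → 1 - f ≠ 0 → Sx f →
    Φ (dv (lg f)) (dv (lg f)) (dv (lg (1 - f))) (dv (lg f)) = 0

/-! ### split polynomials -/

/-- the polynomial is a product of constants and of `X - a` -/
private def N3aSp (A : K[X]) : Prop := lg (algebraMap K[X] (RatFunc K) A) ∈ SU K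

private lemma n3a_C (c : K) : N3aSp (Polynomial.C c) := by
  have h : lg (algebraMap K[X] (RatFunc K) (Polynomial.C c)) = (rU (lg c) : Additive (RatFunc K)ˣ) := by
    rw [RatFunc.algebraMap_C, rU, resU_lg]
  rw [N3aSp, h]
  exact AddSubgroup.subset_closure (Or.inl ⟨_, rfl⟩)

private lemma n3a_X (a : K) : N3aSp (Polynomial.X - Polynomial.C a) := by
  have h : lg (algebraMap K[X] (RatFunc K) (Polynomial.X - Polynomial.C a)) = ee a := by
    rw [map_sub, RatFunc.algebraMap_X, RatFunc.algebraMap_C, ee]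
  rw [N3aSp, h]
  exact AddSubgroup.subset_closure (Or.inr ⟨_, rfl⟩)

private lemma n3a_mul {A B : K[X]} (hA : A ≠ 0) (hB : B ≠ 0) (h1 : N3aSp A) (h2 : N3aSp B) :
    N3aSp (A * B) := by
  rw [N3aSp, map_mul, lg_mul (RatFunc.algebraMap_ne_zero hA) (RatFunc.algebraMap_ne_zero hB)]
  exact add_mem h1 h2

private lemma n3a_ell {p : K × K} (_ : p ≠ 0) : N3aSp (ell p) := by
  by_cases h2 : p.2 = 0
  · have : ell p = Polynomial.C (-p.1) := by rw [ell, h2]; simp
    rw [this]
    exact n3a_C _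
  · have e : ell p = Polynomial.C p.2 * (Polynomial.X - Polynomial.C (p.1 / p.2)) := by
      rw [ell, mul_sub, ← Polynomial.C_mul]
      congr 2
      field_simp
    rw [e]
    exact n3a_mul (Polynomial.C_ne_zero.2 h2) (X_sub_C_ne_zero _) (n3a_C _) (n3a_X _)

/-- a form killing split functions kills pairs of divisors of split polynomials `A + B = D` -/
private lemma n3a_poly {Φ : V4 K} (h : KFs Φ) {A B D : K[X]} (hA : A ≠ 0) (hB : B ≠ 0)
    (hD : D ≠ 0) (sA : N3aSp A) (sB : N3aSp B) (sD : N3aSp D) (e : A + B = D) :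
    Φ (dvP A - dvP D) (dvP A - dvP D) (dvP B - dvP D) (dvP A - dvP D) = 0 := by
  have hA' := RatFunc.algebraMap_ne_zero (K := K) hA
  have hB' := RatFunc.algebraMap_ne_zero (K := K) hB
  have hD' := RatFunc.algebraMap_ne_zero (K := K) hD
  set f : RatFunc K := algebraMap K[X] (RatFunc K) A / algebraMap K[X] (RatFunc K) D with hf
  have e1 : 1 - f = algebraMap K[X] (RatFunc K) B / algebraMap K[X] (RatFunc K) D := by
    rw [hf, ← e] at *
    rw [map_add] at *
    field_simp
    ring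
  have hs : Sx f := by
    constructor
    · rw [hf, lg_div hA' hD']
      exact sub_mem sA sD
    · rw [e1, lg_div hB' hD']
      exact sub_mem sB sD
  have := h f (div_ne_zero hA' hD') (by rw [e1]; exact div_ne_zero hB' hD') hs
  rwa [e1, dv_frac hB hD, hf, dv_frac hA hD] at this

private lemma n3a_H1 {Φ : V4 K} (h : KFs Φ) {p q r : K × K} (hpq : Helper14.W4.br p q ≠ 0)
    (hpr : Helper14.W4.br p r ≠ 0) (hqr : Helper14.W4.br q r ≠ 0) :
    Φ (E p - E q) (E p - E q) (E r - E q) (E p - E q) = 0 := by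
  have hp := ne_zero_of_br hpq
  have hq := ne_zero_of_br' hpq
  have hr := ne_zero_of_br' hpr
  have c1 := Polynomial.C_ne_zero.2 hqr
  have c2 := Polynomial.C_ne_zero.2 hpq
  have c3 := Polynomial.C_ne_zero.2 hpr
  have k1 : Polynomial.C (Helper14.W4.br q r) * ell p ≠ 0 := mul_ne_zero c1 (ell_ne hp)
  have k2 : Polynomial.C (Helper14.W4.br p q) * ell r ≠ 0 := mul_ne_zero c2 (ell_ne hr)
  have k3 : Polynomial.C (Helper14.W4.br p r) * ell q ≠ 0 := mul_ne_zero c3 (ell_ne hq)
  have e : Polynomial.C (Helper14.W4.br q r) * ell p + Polynomial.C (Helper14.W4.br p q) * ell r =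
      Polynomial.C (Helper14.W4.br p r) * ell q := by
    simp only [ell, Helper14.W4.br, Polynomial.C_sub, Polynomial.C_mul]
    ring
  have := n3a_poly h k1 k2 k3 (n3a_mul c1 (ell_ne hp) (n3a_C _) (n3a_ell hp))
    (n3a_mul c2 (ell_ne hr) (n3a_C _) (n3a_ell hr))
    (n3a_mul c3 (ell_ne hq) (n3a_C _) (n3a_ell hq)) e
  rwa [dvP_mul c1 (ell_ne hp), dvP_mul c2 (ell_ne hr),
    dvP_mul c3 (ell_ne hq), dvP_C, dvP_C, dvP_C, zero_add, zero_add, zero_add,
    dvP_ell hp, dvP_ell hq, dvP_ell hr] at this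

private lemma n3a_H2 {Φ : V4 K} (h : KFs Φ) {a b c d e : K × K}
    (hac : Helper14.W4.br a c ≠ 0) (hae : Helper14.W4.br a e ≠ 0)
    (hbc : Helper14.W4.br b c ≠ 0) (hbe : Helper14.W4.br b e ≠ 0)
    (hcd : Helper14.W4.br c d ≠ 0) (hce : Helper14.W4.br c e ≠ 0)
    (hde : Helper14.W4.br d e ≠ 0) :
    Φ (E a + E b - E c - E d) (E a + E b - E c - E d)
      (E e + E (inv4 a b c d e) - E c - E d) (E a + E b - E c - E d) = 0 := by
  have ha := ne_zero_of_br hac
  have hb := ne_zero_of_br hbc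
  have hc := ne_zero_of_br hcd
  have hd := ne_zero_of_br hde
  have he := ne_zero_of_br' hae
  have kc : Helper14.W4.br c (inv4 a b c d e) =
      Helper14.W4.br a c * Helper14.W4.br d e * Helper14.W4.br b c := by
    rw [inv4, br_add_right, br_smul_right, br_smul_right, br_self, br_swap b c, br_swap a c]
    ring
  have hi : inv4 a b c d e ≠ 0 := by
    refine ne_zero_of_br' (p := c) ?_
    rw [kc]; exact mul_ne_zero (mul_ne_zero hac hde) hbc
  have n1 : Polynomial.C (Helper14.W4.br c e * Helper14.W4.br d e) ≠ 0 :=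
    Polynomial.C_ne_zero.2 (mul_ne_zero hce hde)
  have n2 : Polynomial.C (Helper14.W4.br a e * Helper14.W4.br b e) ≠ 0 :=
    Polynomial.C_ne_zero.2 (mul_ne_zero hae hbe)
  have n3 : (Polynomial.C (-1 : K)) ≠ 0 := Polynomial.C_ne_zero.2 (neg_ne_zero.2 one_ne_zero)
  have m1 := mul_ne_zero (ell_ne ha) (ell_ne hb)
  have m2 := mul_ne_zero (ell_ne hc) (ell_ne hd)
  have m3 := mul_ne_zero (ell_ne he) (ell_ne hi)
  have ee' : Polynomial.C (Helper14.W4.br c e * Helper14.W4.br d e) * (ell a * ell b) +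
      Polynomial.C (-1) * (ell e * ell (inv4 a b c d e)) =
      Polynomial.C (Helper14.W4.br a e * Helper14.W4.br b e) * (ell c * ell d) := by
    simp only [ell, inv4, Helper14.W4.br, Polynomial.C_sub, Polynomial.C_mul, Prod.fst_add,
      Prod.snd_add, Prod.smul_fst, Prod.smul_snd, smul_eq_mul, Polynomial.C_add, Polynomial.C_neg,
      Polynomial.C_1]
    ring
  have := n3a_poly h (mul_ne_zero n1 m1) (mul_ne_zero n3 m3) (mul_ne_zero n2 m2)
    (n3a_mul n1 m1 (n3a_C _) (n3a_mul (ell_ne ha) (ell_ne hb) (n3a_ell ha) (n3a_ell hb)))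
    (n3a_mul n3 m3 (n3a_C _) (n3a_mul (ell_ne he) (ell_ne hi) (n3a_ell he) (n3a_ell hi)))
    (n3a_mul n2 m2 (n3a_C _) (n3a_mul (ell_ne hc) (ell_ne hd) (n3a_ell hc) (n3a_ell hd))) ee'
  rw [dvP_mul n1 m1, dvP_mul n2 m2, dvP_mul n3 m3, dvP_C, dvP_C, dvP_C, zero_add, zero_add,
    zero_add, dvP_mul (ell_ne ha) (ell_ne hb), dvP_mul (ell_ne hc) (ell_ne hd),
    dvP_mul (ell_ne he) (ell_ne hi), dvP_ell ha, dvP_ell hb, dvP_ell hc, dvP_ell hd,
    dvP_ell he, dvP_ell hi] at this
  rw [← sub_sub, ← sub_sub] at this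
  exact this

/-- as `sol_Pol` -/
theorem sol_Pol' {Φ : V4 K} (hs : SA Φ) (h : KFs Φ) : Sol (Pol Φ) where
  s12 u v w y := by
    rw [Pol_apply, Pol_apply, hs.sym v u]; ring
  s23 u v w y := by
    rw [Pol_apply, Pol_apply, hs.sym w v]; ring
  diag u := by
    rw [Pol_apply, hs.alt]; ring
  H1 p q r hpq hpr hqr := by
    rw [Pol_apply, n3a_H1 h hpq hpr hqr]; ring
  H2 a b c d e hac had hae hbc hbd hbe hcd hce hde := by
    rw [Pol_apply, n3a_H2 h hac hae hbc hbe hcd hce hde]; ring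

/-- reciprocity for a pair of points and a split function -/
private lemma n3a_kab {Ψ : V4 K} (S : Sol Ψ) {a b : K} (hab : a ≠ b) {f : RatFunc K}
    (hf : Sx f) :
    kab Ψ a b (dv (lg (1 - f))) (dv (lg f)) =
      lP (lam Ψ a b) (spec a (some f)) - lP (lam Ψ a b) (spec b (some f)) := by
  rw [kab, if_neg hab]
  exact kap_dv_split (lam_Five S hab) a b hf

private lemma n3a_KP {Ψ : V4 K} (S : Sol Ψ) : KFs (KP Ψ) := by
  intro f _ _ hf
  rw [KP_sum Ψ (S := (dv (lg f)).support) (le_refl _) (le_refl _)]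
  refine Finset.sum_eq_zero fun a ha => Finset.sum_eq_zero fun b hb => ?_
  by_cases hab : a = b
  · subst hab
    rw [kab, if_pos rfl]; simp
  · have h0 := (lam_Five S hab).zero
    rw [n3a_kab S hab hf, lP_spec_zero h0 (Finsupp.mem_support_iff.1 ha),
      lP_spec_zero h0 (Finsupp.mem_support_iff.1 hb)]
    ring

/-- as `Pol_KP` -/
theorem Pol_KP' {Ψ : V4 K} (S : Sol Ψ) (u v w y : K →₀ ℚ) :
    Pol (KP Ψ) u v w y = -2 * Ψ u v w y := by
  have S' := sol_Pol' (KP_SA S) (n3a_KP S)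
  have S2 : Sol (Pol (KP Ψ) + (2 : ℚ) • Ψ) := by
    constructor
    · intro u v w y
      simp only [LinearMap.add_apply, LinearMap.smul_apply]; rw [S.s12, S'.s12]
    · intro u v w y
      simp only [LinearMap.add_apply, LinearMap.smul_apply]; rw [S.s23, S'.s23]
    · intro u
      simp only [LinearMap.add_apply, LinearMap.smul_apply]; rw [S.diag, S'.diag]; simp
    · intro p q r h1 h2 h3
      simp only [LinearMap.add_apply, LinearMap.smul_apply]
      rw [S.H1 p q r h1 h2 h3, S'.H1 p q r h1 h2 h3]; simp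
    · intro a b c d e h1 h2 h3 h4 h5 h6 h7 h8 h9
      simp only [LinearMap.add_apply, LinearMap.smul_apply]
      rw [S.H2 a b c d e h1 h2 h3 h4 h5 h6 h7 h8 h9, S'.H2 a b c d e h1 h2 h3 h4 h5 h6 h7 h8 h9]
      simp
  have h0 := S2.eq_zero fun a b hab x => by
    have h1 := lam_Pol_KP S hab x
    have h2 : lam (Pol (KP Ψ) + (2 : ℚ) • Ψ) a b x =
        lam (Pol (KP Ψ)) a b x + 2 * lam Ψ a b x := by
      simp only [lam, LinearMap.add_apply, LinearMap.smul_apply, smul_eq_mul]; ring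
    rw [h2, h1]; ring
  have h1 := congrArg (fun T : V4 K => T u v w y) h0
  simp only [LinearMap.add_apply, LinearMap.smul_apply, smul_eq_mul, LinearMap.zero_apply] at h1
  linarith

end NFA
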