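import Pool.Agent.NFA.N3a

set_option autoImplicit false

/-!
# NFA-N3b: the leading terms of a split cocycle in `B_3 ⊗ K(t)^*`

PLAN.  Copy of `rel_spec` (end of Helper14/W4/Lk3.lean; `lamC` replaced by `lam_ex` of N1, `kap_dv` by `kap_dv_split`)
and of `lead_terms` (Helper14/W4/Lk4.lean): a finite representation `z = ∑ r i • GG 3 (some (x i)) (g i)` with
`Sx (x i)`, `g i ∈ SU K` from `hz` (`Submodule.span` induction / `Finsupp.mem_span_..`), `hnot` for the submodule
`(S40 K).map (mm ∘ₗ dC 1 0)`, `hkill` for `x = some f`, `Sx f`; `hKF : KFs Φ`; `sol_Pol'`, `Pol_KP'`.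
-/

noncomputable section

open Polynomial TensorProduct
open scoped Classical

namespace NFA

open Helper14.Gon Helper14.W4 Helper42.LT

universe u v w

variable {K : Type u} [Field K]

private lemma n3b_rep {z : Cx 3 1 (RatFunc K)} (hz : z ∈ S31 K) :
    ∃ ζ : (RatFunc K × Additive (RatFunc K)ˣ) →₀ ℚ,
      (∀ i ∈ ζ.support, Sx i.1 ∧ i.2 ∈ SU K) ∧
      z = ∑ i ∈ ζ.support, ζ i • GG 3 (some i.1) i.2 := by
  have h : z ∈ Submodule.span ℚ ((fun i : RatFunc K × Additive (RatFunc K)ˣ =>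
      GG 3 (some i.1) i.2) '' {i | Sx i.1 ∧ i.2 ∈ SU K}) := by
    refine Submodule.span_mono ?_ hz
    rintro _ ⟨x, g, hx, hg, rfl⟩
    exact ⟨(x, g), ⟨hx, hg⟩, rfl⟩
  rw [Finsupp.mem_span_image_iff_linearCombination] at h
  obtain ⟨ζ, hζ, rfl⟩ := h
  exact ⟨ζ, fun i hi => (Finsupp.mem_supported ℚ ζ).1 hζ hi, rfl⟩

/-- the relation from the specialisations of the double residues -/
private lemma n3b_rel {l : K → ℚ} (hl : Five l) {z : Cx 3 1 (RatFunc K)}
    (hz : dC 0 1 z = 0) {ι : Type v} (I : Finset ι) (r : ι → ℚ) (x : ι → RatFunc K)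
    (hx : ∀ i ∈ I, Sx (x i)) (g : ι → Additive (RatFunc K)ˣ)
    (hzs : z = ∑ i ∈ I, r i • GG 3 (some (x i)) (g i)) (a b : K) :
    ∑ i ∈ I, r i * (va a (g i) * va b (lgP (some (x i))) *
      kap l a b (dv (l1P (some (x i)))) (dv (lgP (some (x i))))) = 0 := by
  obtain ⟨θ, hθ⟩ := lam_ex hl
  have hb : bet a b z = ∑ i ∈ I, (r i * (va a (g i) * va b (lgP (some (x i))))) •
      PB 2 0 (cl 2 (some (x i))) (u0 _) := by
    rw [hzs, map_sum]
    refine Finset.sum_congr rfl fun i _ => ?_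
    rw [map_smul, bet_GG, smul_smul]
  have hs : ∀ c : K, sC c 0 0 (bet a b z) =
      ∑ i ∈ I, (r i * (va a (g i) * va b (lgP (some (x i))))) •
        PB 2 0 (cl 2 (spec c (some (x i)))) (u0 _) := by
    intro c
    rw [hb, map_sum]
    refine Finset.sum_congr rfl fun i _ => ?_
    have e : sC c 0 0 (PB 2 0 (cl 2 (some (x i))) (u0 (RatFunc K))) =
      PB 2 0 (cl 2 (spec c (some (x i)))) (sT c 0 (u0 (RatFunc K))) := sC_PB c 0 0 (some (x i)) _
    rw [map_smul, e]
    congr 2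
    rw [u0, sT_dm, u0]
    congr 1
    funext i
    exact i.elim0
  have z2 : sC b 0 0 (bet a b z) = 0 := sC_ld b 0 0 _
  have z1 : sC a 0 0 (bet a b z) = 0 := by
    have : bet a b z = bet b a z := cyc_symm 0 z hz a b
    rw [this]; exact sC_ld a 0 0 _
  have f1 := congrArg θ z1
  have f2 := congrArg θ z2
  rw [map_zero, hs, map_sum] at f1 f2
  have f3 := congrArg₂ (· - ·) f1 f2
  simp only [sub_zero] at f3
  rw [← Finset.sum_sub_distrib] at f3
  rw [← f3]
  refine Finset.sum_congr rfl fun i hi => ?_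
  rw [map_smul, map_smul, hθ, hθ, u0, e0_dm, smul_eq_mul, smul_eq_mul]
  have := kap_dv_split hl a b (hx i hi)
  change r i * (_ * _ * kap l a b (dv (lg (1 - x i))) (dv (lg (x i)))) = _
  rw [this]
  ring

theorem lead_split {z : Cx 3 1 (RatFunc K)} (hz : z ∈ S31 K) (hd : dC 0 1 z = 0) :
    ∃ w ∈ S40 K, mm (dC 1 0 w) = mm z := by
  by_contra hcon
  have hnot : mm z ∉ (S40 K).map (mm ∘ₗ (dC 1 0 : Cx 4 0 (RatFunc K) →ₗ[ℚ] _)) := by
    rintro ⟨w, hw, hw'⟩
    exact hcon ⟨w, hw, hw'⟩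
  obtain ⟨Λ, hΛz, hΛ⟩ := Submodule.exists_le_ker_of_notMem hnot
  obtain ⟨ζ, hS, hζ⟩ := n3b_rep hz
  set I := ζ.support with hI
  -- the symmetrised form
  set Φ : V4 K := PhiL Λ + sw12 (PhiL Λ) with hΦ
  have hSA : SA Φ := by
    constructor
    · intro p q r s
      simp only [hΦ, LinearMap.add_apply, sw12_apply]; ring
    · intro p q r
      have e : ∀ p q : K →₀ ℚ, PhiL Λ p q r r = 0 := by
        intro p q
        rw [PhiL_apply]
        have : arr p q r r = 0 := by funext t; simp only [arr, Pi.zero_apply]; ring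
        rw [this, map_zero]
      simp only [hΦ, LinearMap.add_apply, sw12_apply, e]; ring
  have hkill : ∀ x : RatFunc K, Sx x →
      Λ (arr (dv (lgP (some x))) (dv (lgP (some x))) (dv (l1P (some x)))
        (dv (lgP (some x)))) = 0 := by
    intro x hx
    rw [← mm_dC]
    have h1 : mm (dC 1 0 (PB 4 0 (cl 4 (some x)) (u0 (RatFunc K)))) ∈
        (S40 K).map (mm ∘ₗ (dC 1 0 : Cx 4 0 (RatFunc K) →ₗ[ℚ] _)) :=
      ⟨_, Submodule.subset_span ⟨x, hx, rfl⟩, rfl⟩
    exact LinearMap.mem_ker.1 (hΛ h1)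
  have hKF : KFs Φ := by
    intro f _ _ hf
    have h2 := hkill f hf
    rw [lgP_some, l1P_some] at h2
    simp only [hΦ, LinearMap.add_apply, sw12_apply, PhiL_apply]
    rw [h2, add_zero]
  have hmz : mm z = ∑ i ∈ I, ζ i • arr (dv i.2) (dv (lgP (some i.1))) (dv (l1P (some i.1)))
      (dv (lgP (some i.1))) := by
    conv_lhs => rw [hζ]
    rw [map_sum]
    refine Finset.sum_congr rfl fun i _ => ?_
    rw [map_smul, mm_GG]
  have hsym : ∀ a b c d : K, ∑ i ∈ I, ζ i * arr (dv i.2) (dv (lgP (some i.1)))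
      (dv (l1P (some i.1))) (dv (lgP (some i.1))) (a, b, c, d) =
      ∑ i ∈ I, ζ i * arr (dv i.2) (dv (lgP (some i.1))) (dv (l1P (some i.1)))
        (dv (lgP (some i.1))) (b, a, c, d) := by
    intro a b c d
    have h := mm_symm hd a b c d
    rw [hmz, Finset.sum_apply, Finset.sum_apply] at h
    exact h
  -- the value of `Λ`
  have hval : ∑ i ∈ I, ζ i * Φ (dv i.2) (dv (lgP (some i.1))) (dv (l1P (some i.1)))
      (dv (lgP (some i.1))) = 2 * Λ (mm z) := by
    have h1 : Λ (mm z) = ∑ i ∈ I, ζ i * Λ (arr (dv i.2) (dv (lgP (some i.1)))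
        (dv (l1P (some i.1))) (dv (lgP (some i.1)))) := by
      rw [hmz, map_sum]
      exact Finset.sum_congr rfl fun i _ => by rw [map_smul, smul_eq_mul]
    have h2 : Λ (mm z) = ∑ i ∈ I, ζ i * Λ (arr (dv (lgP (some i.1))) (dv i.2)
        (dv (l1P (some i.1))) (dv (lgP (some i.1)))) := by
      have : mm z = ∑ i ∈ I, ζ i • arr (dv (lgP (some i.1))) (dv i.2) (dv (l1P (some i.1)))
          (dv (lgP (some i.1))) := by
        funext t
        obtain ⟨a, b, c, d⟩ := t
        rw [mm_symm hd, hmz, Finset.sum_apply, Finset.sum_apply]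
        refine Finset.sum_congr rfl fun i _ => ?_
        simp only [Pi.smul_apply, arr, smul_eq_mul]
        ring
      rw [this, map_sum]
      exact Finset.sum_congr rfl fun i _ => by rw [map_smul, smul_eq_mul]
    rw [two_mul]
    nth_rewrite 1 [h1]
    rw [h2, ← Finset.sum_add_distrib]
    refine Finset.sum_congr rfl fun i _ => ?_
    simp only [hΦ, LinearMap.add_apply, sw12_apply, PhiL_apply]
    ring
  have S := sol_Pol' hSA hKF
  have k1 := key_M I (fun i => ζ i) (fun i => dv i.2) (fun i => dv (lgP (some i.1)))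
    (fun i => dv (l1P (some i.1))) hsym hSA
  have k2 := key_M I (fun i => ζ i) (fun i => dv i.2) (fun i => dv (lgP (some i.1)))
    (fun i => dv (l1P (some i.1))) hsym (KP_SA S)
  -- the form `KP` vanishes on the cocycle
  have k3 : ∑ i ∈ I, ζ i * KP (Pol Φ) (dv i.2) (dv (lgP (some i.1))) (dv (l1P (some i.1)))
      (dv (lgP (some i.1))) = 0 := by
    set T : Finset K := I.biUnion fun i => (dv i.2).support ∪ (dv (lgP (some i.1))).support
      with hT
    have t1 : ∀ i ∈ I, (dv i.2).support ⊆ T := fun i hi a ha => by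
      rw [hT, Finset.mem_biUnion]; exact ⟨i, hi, Finset.mem_union_left _ ha⟩
    have t2 : ∀ i ∈ I, (dv (lgP (some i.1))).support ⊆ T := fun i hi a ha => by
      rw [hT, Finset.mem_biUnion]; exact ⟨i, hi, Finset.mem_union_right _ ha⟩
    have : ∑ i ∈ I, ζ i * KP (Pol Φ) (dv i.2) (dv (lgP (some i.1))) (dv (l1P (some i.1)))
        (dv (lgP (some i.1))) =
        ∑ a ∈ T, ∑ b ∈ T, ∑ i ∈ I, ζ i * (va a i.2 * va b (lgP (some i.1)) *
          kab (Pol Φ) a b (dv (l1P (some i.1))) (dv (lgP (some i.1)))) := by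
      rw [Finset.sum_congr rfl fun i hi => by
        rw [KP_sum (Pol Φ) (t1 i hi) (t2 i hi), Finset.mul_sum]]
      rw [Finset.sum_comm]
      refine Finset.sum_congr rfl fun a _ => ?_
      rw [Finset.sum_congr rfl fun i hi => by rw [Finset.mul_sum]]
      rw [Finset.sum_comm]
      rfl
    rw [this]
    refine Finset.sum_eq_zero fun a _ => Finset.sum_eq_zero fun b _ => ?_
    by_cases hab : a = b
    · subst hab
      refine Finset.sum_eq_zero fun i _ => ?_
      rw [kab, if_pos rfl]; simp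
    · have := n3b_rel (lam_Five S hab) hd I (fun i => ζ i) (fun i => i.1)
        (fun i hi => (hS i hi).1) (fun i => i.2) hζ a b
      rw [← this]
      refine Finset.sum_congr rfl fun i _ => ?_
      rw [kab, if_neg hab]
  rw [k3, mul_zero] at k2
  have k4 : ∑ i ∈ I, ζ i * (Pol (KP (Pol Φ)) (dv (lgP (some i.1))) (dv (lgP (some i.1)))
      (dv i.2) (dv (l1P (some i.1))) - Pol (KP (Pol Φ)) (dv i.2) (dv (lgP (some i.1)))
      (dv (l1P (some i.1))) (dv (lgP (some i.1)))) =
      -2 * ∑ i ∈ I, ζ i * (Pol Φ (dv (lgP (some i.1))) (dv (lgP (some i.1))) (dv i.2)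
      (dv (l1P (some i.1))) - Pol Φ (dv i.2) (dv (lgP (some i.1))) (dv (l1P (some i.1)))
      (dv (lgP (some i.1)))) := by
    rw [Finset.mul_sum]
    refine Finset.sum_congr rfl fun i _ => ?_
    rw [Pol_KP' S, Pol_KP' S]; ring
  rw [k4] at k2
  have k5 : ∑ i ∈ I, ζ i * (Pol Φ (dv (lgP (some i.1))) (dv (lgP (some i.1))) (dv i.2)
      (dv (l1P (some i.1))) - Pol Φ (dv i.2) (dv (lgP (some i.1))) (dv (l1P (some i.1)))
      (dv (lgP (some i.1)))) = 0 := by
    linarith
  rw [k5, mul_zero] at k1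
  apply hΛz
  have : 4 * (2 * Λ (mm z)) = 0 := by rw [← hval]; exact k1
  linarith

end NFA
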