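import Pool.Agent.NFA.N4b
import Pool.Agent.NFA.N1

set_option autoImplicit false

/-!
# NFA-N4: split cocycles in `B_3 ⊗ K(t)^*` with leading terms zero are constant
-/

noncomputable section

open Polynomial TensorProduct
open scoped Classical

namespace NFA

open Helper14.Gon Helper14.W4 Helper42.LT

universe u v w

section
variable {K L : Type u} [Field K] [Field L] (φ : K →+* L)

lemma n4_va (a : K) : (va (φ a)).comp (resU (TLO.rmK φ)) = va a := by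
  refine DFunLike.ext _ _ fun v => ?_
  have hv : v = lg ((v.toMul : RatFunc K)) := (lg_unit v.toMul).symm
  rw [AddMonoidHom.comp_apply, hv, resU_lg, va_lg, va_lg]
  have hf : (v.toMul : RatFunc K) ≠ 0 := v.toMul.ne_zero
  generalize (v.toMul : RatFunc K) = f at hf
  obtain ⟨p, q, hq, _, rfl⟩ := exists_rep a f
  have hp : p ≠ 0 := by rintro rfl; simp at hf
  have hq' : q.map φ ≠ 0 := (Polynomial.map_ne_zero_iff φ.injective).2 hq
  have hp' : p.map φ ≠ 0 := (Polynomial.map_ne_zero_iff φ.injective).2 hp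
  rw [n4_rm_div, dvR_div hp' hq', dvR_div hp hq, Finsupp.sub_apply, Finsupp.sub_apply, dvP_apply,
    dvP_apply, dvP_apply, dvP_apply, ← Polynomial.eq_rootMultiplicity_map φ.injective,
    ← Polynomial.eq_rootMultiplicity_map φ.injective]

lemma n4_va_out {b : L} (hb : ∀ a, φ a ≠ b) {v : Additive (RatFunc K)ˣ} (hv : v ∈ SU K) :
    va b (resU (TLO.rmK φ) v) = 0 := by
  induction hv using AddSubgroup.closure_induction with
  | mem x hx =>
    rcases hx with ⟨κ, rfl⟩ | ⟨a, rfl⟩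
    · rw [n4_resU_rU]
      exact DFunLike.congr_fun (va_rU b) _
    · rw [n4_resU_ee, va_ee, if_neg (hb a)]
  | zero => rw [map_zero, map_zero]
  | add x y _ _ hx hy => rw [map_add, map_add, hx, hy, add_zero]
  | neg x _ hx => rw [map_neg, map_neg, hx, neg_zero]

end

section
variable {K L : Type u} [Field K] [Field L] (φ : K →+* L)

lemma n4_res_GG (x : P1 (RatFunc K)) (g : Additive (RatFunc K)ˣ) :
    resC 2 1 (TLO.rmK φ) (GG 3 x g) = GG 3 (mapP (TLO.rmK φ) x) (resU (TLO.rmK φ) g) := by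
  have e := n4_resC_PB (TLO.rmK φ) 1 1 x (wT 0 g (u0 (RatFunc K)))
  refine e.trans ?_
  rw [n4_resT_wT, GG]
  congr 2
  rw [u0, n4_resT_dm, u0]
  congr 1
  funext i
  exact i.elim0

lemma n4_l1P (x : P1 (RatFunc K)) :
    l1P (mapP (TLO.rmK φ) x) = resU (TLO.rmK φ) (l1P x) := by
  cases x with
  | none => exact (map_zero _).symm
  | some f =>
    change lg (1 - TLO.rmK φ f) = resU _ (lg (1 - f))
    rw [resU_lg, map_sub, map_one]

lemma n4_dv_in (a : K) (v : Additive (RatFunc K)ˣ) :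
    dv (resU (TLO.rmK φ) v) (φ a) = dv v a := by
  have h := DFunLike.congr_fun (n4_va φ a) v
  rw [AddMonoidHom.comp_apply, va, va, co_apply, co_apply] at h
  exact h

lemma n4_dv_out {b : L} (hb : ∀ a, φ a ≠ b) {v : Additive (RatFunc K)ˣ} (hv : v ∈ SU K) :
    dv (resU (TLO.rmK φ) v) b = 0 := by
  have h := n4_va_out φ hb hv
  rw [va, co_apply] at h
  exact h

lemma n4_mm_in (z : Cx 3 1 (RatFunc K)) (a b c d : K) :
    mm (resC 2 1 (TLO.rmK φ) z) (φ a, φ b, φ c, φ d) = mm z (a, b, c, d) := by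
  obtain ⟨ζ, hζ⟩ := exists_GG 3 z
  have h1 : mm z = ∑ i ∈ ζ.support, ζ i • mm (GG 3 i.1 i.2) := by
    conv_lhs => rw [hζ]
    rw [map_sum]
    exact Finset.sum_congr rfl fun i _ => map_smul _ _ _
  have h2 : mm (resC 2 1 (TLO.rmK φ) z) = ∑ i ∈ ζ.support, ζ i •
      mm (GG 3 (mapP (TLO.rmK φ) i.1) (resU (TLO.rmK φ) i.2)) := by
    have h3 : resC 2 1 (TLO.rmK φ) z = ∑ i ∈ ζ.support, ζ i •
        GG 3 (mapP (TLO.rmK φ) i.1) (resU (TLO.rmK φ) i.2) := by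
      conv_lhs => rw [hζ]
      refine (map_sum _ _ _).trans ?_
      refine Finset.sum_congr rfl fun i _ => ?_
      refine (map_smul _ _ _).trans ?_
      rw [n4_res_GG]
    rw [h3, map_sum]
    exact Finset.sum_congr rfl fun i _ => map_smul _ _ _
  rw [h1, h2, Finset.sum_apply, Finset.sum_apply]
  refine Finset.sum_congr rfl fun i _ => ?_
  rw [Pi.smul_apply, Pi.smul_apply, mm_GG, mm_GG, arr, arr, mapP_some_eq, n4_l1P]
  simp only [n4_dv_in]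

lemma n4_mm_out {z : Cx 3 1 (RatFunc K)} (hz : z ∈ S31 K) (t : L × L × L × L)
    (ht : (∀ a, φ a ≠ t.1) ∨ (∀ a, φ a ≠ t.2.1) ∨ (∀ a, φ a ≠ t.2.2.1) ∨
      (∀ a, φ a ≠ t.2.2.2)) : mm (resC 2 1 (TLO.rmK φ) z) t = 0 := by
  have : S31 K ≤ LinearMap.ker ((LinearMap.proj t : Arr L →ₗ[ℚ] ℚ) ∘ₗ mm ∘ₗ
      (resC 2 1 (TLO.rmK φ) : Cx 3 1 (RatFunc K) →ₗ[ℚ] Cx 3 1 (RatFunc L))) := by
    refine Submodule.span_le.2 ?_
    rintro _ ⟨x, g, hx, hg, rfl⟩
    change mm (resC 2 1 (TLO.rmK φ) (GG 3 (some x) g)) t = 0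
    rw [n4_res_GG, mm_GG, mapP_some_eq, n4_l1P, arr]
    change dv (resU (TLO.rmK φ) g) t.1 * dv (resU (TLO.rmK φ) (lg x)) t.2.1 *
      (dv (resU (TLO.rmK φ) (lg (1 - x))) t.2.2.1 * dv (resU (TLO.rmK φ) (lg x)) t.2.2.2 -
        dv (resU (TLO.rmK φ) (lg (1 - x))) t.2.2.2 *
          dv (resU (TLO.rmK φ) (lg x)) t.2.2.1) = 0
    rcases ht with h | h | h | h
    · rw [n4_dv_out φ h hg]; ring
    · rw [n4_dv_out φ h hx.1]; ring
    · rw [n4_dv_out φ h hx.1, n4_dv_out φ h hx.2]; ring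
    · rw [n4_dv_out φ h hx.1, n4_dv_out φ h hx.2]; ring
  exact this hz

theorem mm_rm {z : Cx 3 1 (RatFunc K)} (hz : z ∈ S31 K) (hm : mm z = 0) :
    mm (resC 2 1 (TLO.rmK φ) z) = 0 := by
  funext t
  by_cases h1 : ∃ a, φ a = t.1
  · by_cases h2 : ∃ a, φ a = t.2.1
    · by_cases h3 : ∃ a, φ a = t.2.2.1
      · by_cases h4 : ∃ a, φ a = t.2.2.2
        · obtain ⟨a, ha⟩ := h1
          obtain ⟨b, hb⟩ := h2
          obtain ⟨c, hc⟩ := h3
          obtain ⟨d, hd⟩ := h4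
          have ht : t = (φ a, φ b, φ c, φ d) := by rw [ha, hb, hc, hd]
          rw [ht, n4_mm_in, hm]; rfl
        · exact n4_mm_out φ hz t (Or.inr (Or.inr (Or.inr fun a h => h4 ⟨a, h⟩)))
      · exact n4_mm_out φ hz t (Or.inr (Or.inr (Or.inl fun a h => h3 ⟨a, h⟩)))
    · exact n4_mm_out φ hz t (Or.inr (Or.inl fun a h => h2 ⟨a, h⟩))
  · exact n4_mm_out φ hz t (Or.inl fun a h => h1 ⟨a, h⟩)

end

section
variable {K L : Type u} [Field K] [Field L] (φ : K →+* L)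

lemma n4_ct_out {b : L} (hb : ∀ a, φ a ≠ b) {z : Cx 3 1 (RatFunc K)} (hz : z ∈ S31 K) :
    ct 3 0 (va b) (resC 2 1 (TLO.rmK φ) z) = 0 := by
  have : S31 K ≤ LinearMap.ker ((ct 3 0 (va b)) ∘ₗ
      (resC 2 1 (TLO.rmK φ) : Cx 3 1 (RatFunc K) →ₗ[ℚ] Cx 3 1 (RatFunc L))) := by
    refine Submodule.span_le.2 ?_
    rintro _ ⟨x, g, hx, hg, rfl⟩
    change ct 3 0 (va b) (resC 2 1 (TLO.rmK φ) (GG 3 (some x) g)) = 0
    have e := n4_resC_PB (TLO.rmK φ) 1 1 (some x) (wT 0 g (u0 (RatFunc K)))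
    refine (congrArg (ct 3 0 (va b)) e).trans ?_
    rw [n4_resT_wT]
    refine (ct_PB _ _ _ _ _).trans ?_
    rw [ctT_wT_zero, n4_va_out φ hb hg, zero_smul]
    exact (PB 3 0 (cl 3 (mapP (TLO.rmK φ) (some x)))).map_zero
  exact this hz

lemma n4_ld_out {b : L} (hb : ∀ a, φ a ≠ b) {z : Cx 3 1 (RatFunc K)} (hz : z ∈ S31 K) :
    ld 0 1 (va b) (resC 2 1 (TLO.rmK φ) z) = 0 := by
  have : S31 K ≤ LinearMap.ker ((ld 0 1 (va b)) ∘ₗ
      (resC 2 1 (TLO.rmK φ) : Cx 3 1 (RatFunc K) →ₗ[ℚ] Cx 3 1 (RatFunc L))) := by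
    refine Submodule.span_le.2 ?_
    rintro _ ⟨x, g, hx, hg, rfl⟩
    change ld 0 1 (va b) (resC 2 1 (TLO.rmK φ) (GG 3 (some x) g)) = 0
    have e := n4_resC_PB (TLO.rmK φ) 1 1 (some x) (wT 0 g (u0 (RatFunc K)))
    refine (congrArg (ld 0 1 (va b)) e).trans ?_
    refine (ld_PB _ _ _ _ _).trans ?_
    rw [mapP_some_eq, lgP_some, n4_va_out φ hb hx.1, zero_smul]
  exact this hz

lemma n4_kill {N : Type u} [AddCommGroup N] [Module ℚ N] (f : Cx 3 1 (RatFunc K) →ₗ[ℚ] N)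
    {z : Cx 3 1 (RatFunc K)} (hz : f z = 0) (s : Finset K) (w : K → Cx 3 1 (RatFunc K))
    (hw : ∀ a, f (w a) = 0) : f (z - ∑ a ∈ s, w a) = 0 := by
  rw [map_sub, map_sum, hz, Finset.sum_eq_zero fun a _ => hw a, sub_zero]

lemma n4_ct_wout {b : L} (hb : ∀ a, φ a ≠ b) (a : K) (y : Cx 3 0 K) :
    ct 3 0 (va b) (resC 2 1 (TLO.rmK φ) (wC 3 0 (ee a) (rC 1 0 y))) = 0 := by
  have e := n4_wC_resC (TLO.rmK φ) 1 0 (ee a) (rC 1 0 y)
  refine (congrArg (ct 3 0 (va b)) e).trans ?_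
  refine (ct_wC_zero _ _ _ _).trans ?_
  rw [n4_resU_ee, va_ee, if_neg (hb a), zero_smul]

lemma n4_ld_wout (b : L) (a : K) (y : Cx 3 0 K) :
    ld 0 1 (va b) (resC 2 1 (TLO.rmK φ) (wC 3 0 (ee a) (rC 1 0 y))) = 0 := by
  have e := n4_wC_resC (TLO.rmK φ) 1 0 (ee a) (rC 1 0 y)
  have e2 := n4_rC_resC φ 1 0 y
  refine (congrArg (ld 0 1 (va b)) e).trans ?_
  refine (ld_wC 0 0 _ _ _).trans ?_
  have e3 : ld 0 0 (va b) (resC 2 0 (TLO.rmK φ) (rC 1 0 y)) = 0 :=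
    (congrArg (ld 0 0 (va b)) e2).trans (ld_va_rC_zero 0 b _)
  exact (congrArg _ e3).trans (map_zero _)

end

variable {K : Type u} [Field K]

theorem const_split {z : Cx 3 1 (RatFunc K)} (hz : z ∈ S31 K) (hd : dC 0 1 z = 0)
    (hm : mm z = 0) : z ∈ LW K 0 := by
  set φ : K →+* AlgebraicClosure K := algebraMap K (AlgebraicClosure K) with hφ
  set Z : Cx 3 1 (RatFunc (AlgebraicClosure K)) := resC 2 1 (TLO.rmK φ) z with hZ
  have hdZ : dC 0 1 Z = 0 := by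
    rw [hZ]
    exact (resC_dC 0 1 (TLO.rmK φ) z).trans ((congrArg _ hd).trans (map_zero _))
  have hmZ : mm Z = 0 := mm_rm φ hz hm
  have hcK : ∀ a : K, rC 1 0 (sC 0 1 0 (ct 3 0 (va a) z)) = ct 3 0 (va a) z := by
    intro a
    apply n4_inj (TLO.rmK φ) 0
    have e1 := n4_rC_resC φ 1 0 (sC 0 1 0 (ct 3 0 (va a) z))
    have e2 := n4_sC_resC φ 0 1 0 (ct 3 0 (va a) z)
    have e3 : ct 3 0 (va (φ a)) Z = resC 2 0 (TLO.rmK φ) (ct 3 0 (va a) z) := by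
      have := n4_ct_resC (TLO.rmK φ) 1 0 (va (φ a)) z
      rw [n4_va φ a] at this
      exact this
    have e4 := lead_const hdZ hmZ (φ a)
    refine e1.trans ?_
    rw [← e2, map_zero φ]
    exact (congrArg (fun t => rC 1 0 (sC 0 1 0 t)) e3).symm.trans (e4.trans e3)
  obtain ⟨s, hs⟩ := ct_finite 3 0 z
  set za : K → Cx 3 0 K := fun a => sC 0 1 0 (ct 3 0 (va a) z) with hza
  set z'' := z - ∑ a ∈ s, wC 3 0 (ee a) (rC 1 0 (za a)) with hz''
  have h1 : ∀ b, ct 3 0 (va b) z'' = 0 := by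
    intro b
    rw [hz'', map_sub, map_sum]
    have : ∀ a ∈ s, ct 3 0 (va b) (wC 3 0 (ee a) (rC 1 0 (za a))) =
        if a = b then rC 1 0 (za a) else 0 := by
      intro a _
      rw [ct_wC_zero, va_ee, ite_smul, one_smul, zero_smul]
    rw [Finset.sum_congr rfl this, Finset.sum_ite_eq']
    split_ifs with hb
    · rw [hza]; simp only [hcK b, sub_self]
    · rw [hs b hb, sub_zero]
  have h2 : ∀ b, ld 0 1 (va b) z'' = rC 0 1 (dC 0 0 (za b)) := by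
    intro b
    have e1 := ld_cyc 0 0 (va b) z
    rw [hd, map_zero] at e1
    have e2 : ld 0 1 (va b) z = dC 0 0 (ct 3 0 (va b) z) := (sub_eq_zero.1 e1.symm)
    rw [hz'', map_sub, map_sum, e2, ← hcK b, rC_dC]
    rw [Finset.sum_eq_zero, sub_zero]
    intro a _
    rw [ld_wC, ld_va_rC_zero, map_zero]
  have h3 : ∀ b, dC 0 0 (za b) = 0 := by
    intro b
    have := sC_ld b 0 1 z''
    rwa [h2, sC_rC] at this
  have h4 : ∀ b, ld 0 1 (va b) z'' = 0 := fun b => by rw [h2, h3, map_zero]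
  have hZ'' : ∀ b, ct 3 0 (va b) (resC 2 1 (TLO.rmK φ) z'') = 0 := by
    intro b
    by_cases hb : ∃ a, φ a = b
    · obtain ⟨a, rfl⟩ := hb
      have := n4_ct_resC (TLO.rmK φ) 1 0 (va (φ a)) z''
      rw [n4_va φ a] at this
      exact this.trans ((congrArg _ (h1 a)).trans (map_zero _))
    · have hb' : ∀ a, φ a ≠ b := fun a h => hb ⟨a, h⟩
      exact n4_kill ((ct 3 0 (va b)) ∘ₗ
        (resC 2 1 (TLO.rmK φ) : Cx 3 1 (RatFunc K) →ₗ[ℚ] Cx 3 1 (RatFunc (AlgebraicClosure K))))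
        (n4_ct_out φ hb' hz) s _ fun a => n4_ct_wout φ hb' a (za a)
  have hL'' : ∀ b, ld 0 1 (va b) (resC 2 1 (TLO.rmK φ) z'') = 0 := by
    intro b
    by_cases hb : ∃ a, φ a = b
    · obtain ⟨a, rfl⟩ := hb
      have := n4_ld_resC (TLO.rmK φ) 0 1 (va (φ a)) z''
      rw [n4_va φ a] at this
      exact this.trans ((congrArg _ (h4 a)).trans (map_zero _))
    · have hb' : ∀ a, φ a ≠ b := fun a h => hb ⟨a, h⟩
      exact n4_kill ((ld 0 1 (va b)) ∘ₗ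
        (resC 2 1 (TLO.rmK φ) : Cx 3 1 (RatFunc K) →ₗ[ℚ] Cx 3 1 (RatFunc (AlgebraicClosure K))))
        (n4_ld_out φ hb' hz) s _ fun a => n4_ld_wout φ b a (za a)
  have h5 := Emj 0 0 0 (resC 2 1 (TLO.rmK φ) z'') hZ'' hL''
  have h6 : rC 1 1 (sC 0 1 1 z'') = z'' := by
    apply n4_inj (TLO.rmK φ) 1
    have e1 := n4_rC_resC φ 1 1 (sC 0 1 1 z'')
    have e2 := n4_sC_resC φ 0 1 1 z''
    refine e1.trans ?_
    rw [← e2, map_zero φ]
    exact h5
  have h7 : z = rC 1 1 (sC 0 1 1 z'') + ∑ a ∈ s, wC 3 0 (ee a) (rC 1 0 (za a)) := by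
    rw [h6, hz'']; abel
  rw [h7]
  refine add_mem ?_ (sum_mem fun a _ => ?_)
  · exact Submodule.mem_sup_left (Submodule.mem_sup_right ⟨_, rfl⟩)
  · exact Submodule.mem_sup_right (Submodule.subset_span ⟨a, _, rfl⟩)

end NFA
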