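import Pool.Agent.NFA.Defs
import Pool.Agent.GD3.BInj
import Pool.Agent.Helper14.W4.M42

set_option autoImplicit false

/-!
# NFA-N4b: base change of the operators from `K` to a bigger field
-/

noncomputable section

open Polynomial TensorProduct
open scoped Classical

namespace NFA

open Helper14.Gon Helper14.W4 Helper42.LT

universe u v w

section
variable {K L : Type u} [Field K] [Field L] (φ : K →+* L)

lemma n4_rm_poly (p : K[X]) : TLO.rmK φ (algebraMap K[X] (RatFunc K) p) =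
    algebraMap L[X] (RatFunc L) (p.map φ) := by
  have h := RatFunc.map_apply_div_ne_zero (φ := mapRingHom φ)
    (nonZeroDivisors_le_comap_nonZeroDivisors_of_injective _ (map_injective φ φ.injective))
    p (1 : K[X]) one_ne_zero
  rw [map_one, div_one, map_one, map_one, div_one] at h
  exact h

lemma n4_rm_div (p q : K[X]) : TLO.rmK φ (algebraMap K[X] (RatFunc K) p /
    algebraMap K[X] (RatFunc K) q) =
    algebraMap L[X] (RatFunc L) (p.map φ) / algebraMap L[X] (RatFunc L) (q.map φ) := by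
  rw [map_div₀, n4_rm_poly, n4_rm_poly]

lemma n4_rm_C (x : K) : TLO.rmK φ (RatFunc.C x) = RatFunc.C (φ x) := by
  rw [← RatFunc.algebraMap_C, n4_rm_poly, Polynomial.map_C, RatFunc.algebraMap_C]

lemma n4_rm_X : TLO.rmK φ (RatFunc.X : RatFunc K) = RatFunc.X := by
  rw [← RatFunc.algebraMap_X, n4_rm_poly, Polynomial.map_X, RatFunc.algebraMap_X]

lemma n4_map_eval (p : K[X]) (c : K) : (p.map φ).eval (φ c) = φ (p.eval c) := by
  rw [eval_map, eval₂_hom]

lemma n4_spec (c : K) (x : P1 (RatFunc K)) :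
    spec (φ c) (mapP (TLO.rmK φ) x) = mapP φ (spec c x) := by
  cases x with
  | none => rfl
  | some f =>
    obtain ⟨p, q, hq, hpq, hf⟩ := exists_rep c f
    have hq' : q.map φ ≠ 0 := (Polynomial.map_ne_zero_iff φ.injective).2 hq
    have hpq' : (p.map φ).eval (φ c) ≠ 0 ∨ (q.map φ).eval (φ c) ≠ 0 := by
      rw [n4_map_eval, n4_map_eval, _root_.map_ne_zero, _root_.map_ne_zero]
      exact hpq
    rw [mapP_some, hf, n4_rm_div, spec_div (φ c) _ _ hq' hpq', spec_div c p q hq hpq,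
      n4_map_eval, n4_map_eval]
    by_cases h : q.eval c = 0
    · rw [if_pos h, if_pos (by rw [h, map_zero])]; rfl
    · rw [if_neg h, if_neg (by rwa [map_eq_zero]), mapP_some, map_div₀]

lemma n4_trail (p : K[X]) : (p.map φ).trailingCoeff = φ p.trailingCoeff := by
  have h : (p.map φ).natTrailingDegree = p.natTrailingDegree := by
    by_cases hp : p = 0
    · subst hp; simp
    · have hp' : p.map φ ≠ 0 := (Polynomial.map_ne_zero_iff φ.injective).2 hp
      apply le_antisymm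
      · apply natTrailingDegree_le_of_ne_zero
        rw [coeff_map, _root_.map_ne_zero]
        exact (mem_support_iff.1 (natTrailingDegree_mem_support_of_nonzero hp))
      · apply natTrailingDegree_le_of_ne_zero
        have := mem_support_iff.1 (natTrailingDegree_mem_support_of_nonzero hp')
        rw [coeff_map, _root_.map_ne_zero] at this
        exact this
  rw [trailingCoeff, trailingCoeff, h, coeff_map]

lemma n4_tcP (c : K) (p : K[X]) : tcP (φ c) (p.map φ) = φ (tcP c p) := by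
  change ((p.map φ).comp (Polynomial.X + C (φ c))).trailingCoeff =
    φ (p.comp (Polynomial.X + C c)).trailingCoeff
  rw [← n4_trail, Polynomial.map_comp, Polynomial.map_add, Polynomial.map_X, Polynomial.map_C]

lemma n4_lc (c : K) (f : RatFunc K) : lc (φ c) (TLO.rmK φ f) = φ (lc c f) := by
  obtain ⟨p, q, _, _, hf⟩ := exists_rep c f
  rw [hf, n4_rm_div, lc_div, lc_div, n4_tcP, n4_tcP, map_div₀]

lemma n4_lcU (c : K) (v : Additive (RatFunc K)ˣ) :
    lcU (φ c) (resU (TLO.rmK φ) v) = resU φ (lcU c v) := by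
  have hv : v = lg ((v.toMul : RatFunc K)) := (lg_unit v.toMul).symm
  rw [hv, resU_lg, lcU_lg, lcU_lg, resU_lg, n4_lc]

lemma n4_resU_rU (v : Additive Kˣ) :
    resU (TLO.rmK φ) (rU v) = rU (resU φ v) := by
  have hv : v = lg ((v.toMul : K)) := (lg_unit v.toMul).symm
  rw [hv, rU, rU, resU_lg, resU_lg, resU_lg, resU_lg, n4_rm_C]

lemma n4_resU_ee (a : K) : resU (TLO.rmK φ) (ee a) = ee (φ a) := by
  rw [ee, resU_lg, map_sub, n4_rm_X, n4_rm_C, ee]

end

section
variable {E F : Type u} [Field E] [Field F] (ψ : E →+* F)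

lemma n4_resT_dm {j : ℕ} (v : Fin j → Additive Eˣ) : resT j ψ (dm v) = dm (fun i => resU ψ (v i)) := by
  rw [dm, resT_toQ, resL, exteriorPower.map_apply_ιMulti]; rfl

lemma n4_resT_wT (j : ℕ) (v : Additive Eˣ) (ω : Tx j E) :
    resT (j + 1) ψ (wT j v ω) = wT j (resU ψ v) (resT j ψ ω) := by
  have : (resT (j + 1) ψ) ∘ₗ (wT j v) = (wT j (resU ψ v)) ∘ₗ (resT j ψ) := by
    refine Tx_ext' fun ω => ?_
    rw [LinearMap.comp_apply, LinearMap.comp_apply, wT_toQ, resT_toQ, resT_toQ, wT_toQ,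
      resL_wL]
  exact LinearMap.congr_fun this ω

lemma n4_resC_PB (k j : ℕ) (x : P1 E) (ω : Tx j E) :
    resC (k + 1) j ψ (PB (k + 2) j (cl (k + 2) x) ω) =
      PB (k + 2) j (cl (k + 2) (mapP ψ x)) (resT j ψ ω) := by
  have : (resC (k + 1) j ψ) ∘ₗ (PB (k + 2) j (cl (k + 2) x)) =
      (PB (k + 2) j (cl (k + 2) (mapP ψ x))) ∘ₗ (resT j ψ) := by
    refine Tx_ext' fun ω => ?_
    rw [LinearMap.comp_apply, LinearMap.comp_apply, PB_gen, resC_gen, resT_toQ, PB_gen]
  exact LinearMap.congr_fun this ω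

lemma n4_ctT_resT (j : ℕ) (θ : Additive Fˣ →+ ℚ) (ω : Tx (j + 1) E) :
    ctT j θ (resT (j + 1) ψ ω) = resT j ψ (ctT j (θ.comp (resU ψ)) ω) := by
  induction j with
  | zero =>
    have : (ctT 0 θ) ∘ₗ (resT 1 ψ) = (resT 0 ψ) ∘ₗ (ctT 0 (θ.comp (resU ψ))) := by
      refine Tx_ext_succ fun v ω => ?_
      rw [LinearMap.comp_apply, LinearMap.comp_apply, n4_resT_wT, ctT_wT_zero, ctT_wT_zero,
        map_smul]
      rfl
    exact LinearMap.congr_fun this ω
  | succ j ih =>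
    have : (ctT (j + 1) θ) ∘ₗ (resT (j + 2) ψ) =
        (resT (j + 1) ψ) ∘ₗ (ctT (j + 1) (θ.comp (resU ψ))) := by
      refine Tx_ext_succ fun v ω => ?_
      rw [LinearMap.comp_apply, LinearMap.comp_apply, n4_resT_wT, ctT_wT, ctT_wT, map_sub,
        map_smul, n4_resT_wT, ih]
      rfl
    exact LinearMap.congr_fun this ω

lemma n4_ct_resC (k j : ℕ) (θ : Additive Fˣ →+ ℚ) (z : Cx (k + 2) (j + 1) E) :
    ct (k + 2) j θ (resC (k + 1) (j + 1) ψ z) =
      resC (k + 1) j ψ (ct (k + 2) j (θ.comp (resU ψ)) z) := by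
  have : (ct (k + 2) j θ) ∘ₗ (resC (k + 1) (j + 1) ψ) =
      (resC (k + 1) j ψ) ∘ₗ (ct (k + 2) j (θ.comp (resU ψ))) := by
    refine Cx_ext fun x ω => ?_
    rw [LinearMap.comp_apply, LinearMap.comp_apply, ← PB_gen, n4_resC_PB, ct_PB, ct_PB,
      n4_resC_PB, n4_ctT_resT]
  exact LinearMap.congr_fun this z

lemma n4_ld_resC (k j : ℕ) (θ : Additive Fˣ →+ ℚ) (z : Cx (k + 3) j E) :
    ld k j θ (resC (k + 2) j ψ z) =
      resC (k + 1) j ψ (ld k j (θ.comp (resU ψ)) z) := by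
  have : (ld k j θ) ∘ₗ (resC (k + 2) j ψ) =
      (resC (k + 1) j ψ) ∘ₗ (ld k j (θ.comp (resU ψ))) := by
    refine Cx_ext fun x ω => ?_
    rw [LinearMap.comp_apply, LinearMap.comp_apply, ← PB_gen]
    have e := n4_resC_PB ψ (k + 1) j x (toQ ω)
    have e' : ld k j θ (PB (k + 3) j (cl (k + 3) (mapP ψ x)) (resT j ψ (toQ ω))) =
      θ (lgP (mapP ψ x)) • PB (k + 2) j (cl (k + 2) (mapP ψ x)) (resT j ψ (toQ ω)) := ld_PB _ _ _ _ _
    rw [ld_PB, map_smul]
    refine (congrArg (ld k j θ) e).trans (e'.trans ?_)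
    rw [n4_resC_PB, mapP_some_eq]
    rfl
  exact LinearMap.congr_fun this z

lemma n4_wC_resC (k j : ℕ) (v : Additive Eˣ) (z : Cx (k + 2) j E) :
    resC (k + 1) (j + 1) ψ (wC (k + 2) j v z) = wC (k + 2) j (resU ψ v) (resC (k + 1) j ψ z) := by
  have : (resC (k + 1) (j + 1) ψ) ∘ₗ (wC (k + 2) j v) =
      (wC (k + 2) j (resU ψ v)) ∘ₗ (resC (k + 1) j ψ) := by
    refine Cx_ext fun x ω => ?_
    rw [LinearMap.comp_apply, LinearMap.comp_apply, ← PB_gen, n4_resC_PB, wC_PB, n4_resC_PB,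
      wC_PB, n4_resT_wT]
  exact LinearMap.congr_fun this z

end

section
variable {K L : Type u} [Field K] [Field L] (φ : K →+* L)

lemma n4_sT_resT (c : K) (j : ℕ) (ω : Tx j (RatFunc K)) :
    sT (φ c) j (resT j (TLO.rmK φ) ω) = resT j φ (sT c j ω) := by
  have : (sT (φ c) j) ∘ₗ (resT j (TLO.rmK φ)) = (resT j φ) ∘ₗ (sT c j) := by
    refine Helper14.W4.Tx_ext fun v => ?_
    change sT (φ c) j (resT j (TLO.rmK φ) (dm v)) = resT j φ (sT c j (dm v))
    rw [n4_resT_dm, sT_dm, sT_dm, n4_resT_dm]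
    congr 1
    funext i
    exact n4_lcU φ c (v i)
  exact LinearMap.congr_fun this ω

lemma n4_sC_resC (c : K) (k j : ℕ) (z : Cx (k + 2) j (RatFunc K)) :
    sC (φ c) k j (resC (k + 1) j (TLO.rmK φ) z) = resC (k + 1) j φ (sC c k j z) := by
  have : (sC (φ c) k j) ∘ₗ (resC (k + 1) j (TLO.rmK φ)) = (resC (k + 1) j φ) ∘ₗ (sC c k j) := by
    refine Cx_ext fun x ω => ?_
    rw [LinearMap.comp_apply, LinearMap.comp_apply, ← PB_gen, n4_resC_PB, sC_PB, sC_PB,
      n4_resC_PB, n4_sT_resT, n4_spec]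
  exact LinearMap.congr_fun this z

lemma n4_rT_resT (j : ℕ) (ω : Tx j K) :
    resT j (TLO.rmK φ) (rT j ω) = rT j (resT j φ ω) := by
  have : (resT j (TLO.rmK φ)) ∘ₗ (rT j) = (rT j) ∘ₗ (resT j φ) := by
    refine Helper14.W4.Tx_ext fun v => ?_
    change resT j (TLO.rmK φ) (rT j (dm v)) = rT j (resT j φ (dm v))
    rw [rT_dm, n4_resT_dm, n4_resT_dm, rT_dm]
    congr 1
    funext i
    exact n4_resU_rU φ (v i)
  exact LinearMap.congr_fun this ω

lemma n4_rC_resC (k j : ℕ) (z : Cx (k + 2) j K) :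
    resC (k + 1) j (TLO.rmK φ) (rC k j z) = rC k j (resC (k + 1) j φ z) := by
  have : (resC (k + 1) j (TLO.rmK φ)) ∘ₗ (rC k j) = (rC k j) ∘ₗ (resC (k + 1) j φ) := by
    refine Cx_ext fun x ω => ?_
    rw [LinearMap.comp_apply, LinearMap.comp_apply, ← PB_gen, rC_PB, n4_resC_PB, n4_resC_PB,
      rC_PB, n4_rT_resT]
    cases x with
    | none => rfl
    | some x => rw [mapP_some, mapP_some, mapP_some, mapP_some, n4_rm_C]
  exact LinearMap.congr_fun this z

/-- injectivity -/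
lemma n4_inj {E F : Type u} [Field E] [Field F] (ψ : E →+* F) (j : ℕ) :
    Function.Injective (resC 2 j ψ : Cx 3 j E →ₗ[ℚ] Cx 3 j F) := by
  intro x y hxy
  have h1 : rs 1 j ψ ((eC E 1 j).symm x) = rs 1 j ψ ((eC E 1 j).symm y) := by
    apply (eC F 1 j).injective
    rw [rs_eq, rs_eq, LinearEquiv.apply_symm_apply, LinearEquiv.apply_symm_apply]
    exact hxy
  exact (eC E 1 j).symm.injective (GD3.rs1_inj j ψ h1)

end

end NFA
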