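import Pool.Agent.Helper42.LT.SKb

set_option autoImplicit false

/-!
# NFA-XK: the cochain kappa(x) of a constant x

`kapp a b x` in `B_3(K(t)) ⊗ K(t)^*`, with `y = fy a b`, `Y = lg y`, `Y' = lg (1 - y)`,
`X = lg x`, `X' = lg (1 - x)` :
  `(A1 - A2 + A3 - 2 A4) ⊗ (Y' - X') - 2 (A5 - {1 - 1/x}) ⊗ Y + 2 (A7 - A2 - {1 - 1/y}) ⊗ X`.
`d_kapp` : its differential is `- 2 {x} ⊗ Y ∧ Y' + 2 {y} ⊗ X ∧ X'`.
`X_kapp` : `X ∧ kapp` is `2 {x}_3 ⊗ Y ∧ Y'` modulo the range of `dC 1 1`.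
-/

noncomputable section

open Polynomial TensorProduct
open scoped Classical

namespace NFA

open Helper14.Gon Helper14.W4 Helper42.LT

universe u

section gen
variable {F : Type u} [Field F]

private lemma xk_d (A : P1 F) (v : Additive Fˣ) :
    dC 0 1 (GG 3 A v) = PB 2 2 (cl 2 A) (W2 (lgP A) v) := by
  have h := dC_PB 0 1 A (wT 0 v (u0 F))
  exact h

private lemma xk_w (u v : Additive Fˣ) (A : P1 F) :
    wC 3 1 u (GG 3 A v) = PB 3 2 (cl 3 A) (W2 u v) := by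
  rw [GG, wC_PB]
  rfl

private lemma xk_r (A : P1 F) (v : Additive Fˣ) :
    (LinearMap.range (dC 1 1 : Cx 4 1 F →ₗ[ℚ] Cx 3 2 F)).mkQ
      (PB 3 2 (cl 3 A) (W2 (lgP A) v)) = 0 := by
  rw [Submodule.mkQ_apply, Submodule.Quotient.mk_eq_zero]
  refine ⟨PB 4 1 (cl 4 A) (wT 0 v (u0 _)), ?_⟩
  have e := dC_PB 1 1 A (wT 0 v (u0 _))
  rw [e]
  rfl

/-- the four relations of an entry -/
private lemma xk_four {M : Type u} [AddCommGroup M] [Module ℚ M] (θ : Tx 2 F →ₗ[ℚ] M)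
    {A X X' Y Y' : Additive Fˣ} (p p' q q' r : ℤ)
    (h : A = p • X + p' • X' + q • Y + q' • Y' + r • lg (-1 : F))
    (h0 : ∀ v, θ (W2 A v) = 0) :
    (-(p' : ℚ)) • θ (W2 X X') - (q : ℚ) • θ (W2 X Y) - (q' : ℚ) • θ (W2 X Y') = 0 ∧
    (p : ℚ) • θ (W2 X X') - (q : ℚ) • θ (W2 X' Y) - (q' : ℚ) • θ (W2 X' Y') = 0 ∧
    (p : ℚ) • θ (W2 X Y) + (p' : ℚ) • θ (W2 X' Y) - (q' : ℚ) • θ (W2 Y Y') = 0 ∧
    (p : ℚ) • θ (W2 X Y') + (p' : ℚ) • θ (W2 X' Y') + (q : ℚ) • θ (W2 Y Y') = 0 := by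
  have hz : ∀ (n : ℤ) (u v : Additive Fˣ), θ (W2 (n • u) v) = (n : ℚ) • θ (W2 u v) := by
    intro n u v
    rw [map_zsmul, AddMonoidHom.smul_apply, ← Int.cast_smul_eq_zsmul ℚ, map_smul]
  have hv : ∀ v, (p : ℚ) • θ (W2 X v) + (p' : ℚ) • θ (W2 X' v) + (q : ℚ) • θ (W2 Y v) +
      (q' : ℚ) • θ (W2 Y' v) = 0 := by
    intro v
    have h1 := h0 v
    rw [h] at h1
    rw [map_add, map_add, map_add, map_add, AddMonoidHom.add_apply, AddMonoidHom.add_apply,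
      AddMonoidHom.add_apply, AddMonoidHom.add_apply, map_add, map_add, map_add, map_add,
      hz, hz, hz, hz, hz, W2_m1, map_zero, smul_zero, add_zero] at h1
    exact h1
  have hs : ∀ u v : Additive Fˣ, θ (W2 u v) = - θ (W2 v u) := fun u v => by
    rw [W2_swap u v, map_neg]
  have hss : ∀ u : Additive Fˣ, θ (W2 u u) = 0 := fun u => by rw [W2_self, map_zero]
  refine ⟨?_, ?_, ?_, ?_⟩
  · have h1 := hv X
    rw [hss, hs X' X, hs Y X, hs Y' X] at h1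
    linear_combination (norm := module) h1
  · have h1 := hv X'
    rw [hss, hs Y X', hs Y' X'] at h1
    linear_combination (norm := module) h1
  · have h1 := hv Y
    rw [hss, hs Y' Y] at h1
    linear_combination (norm := module) h1
  · have h1 := hv Y'
    rw [hss] at h1
    linear_combination (norm := module) h1

/-- one entry of the differential -/
private lemma xk_ex (θ : Tx 2 F →ₗ[ℚ] Cx 2 2 F) {A V X X' Y Y' : Additive Fˣ}
    (p p' q q' r a a' b b' : ℤ)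
    (h : A = p • X + p' • X' + q • Y + q' • Y' + r • lg (-1 : F))
    (hV : V = a • X + a' • X' + b • Y + b' • Y') :
    θ (W2 A V) = ((p * a' - p' * a : ℤ) : ℚ) • θ (W2 X X') + ((p * b - q * a : ℤ) : ℚ) • θ (W2 X Y) +
      ((p * b' - q' * a : ℤ) : ℚ) • θ (W2 X Y') + ((p' * b - q * a' : ℤ) : ℚ) • θ (W2 X' Y) +
      ((p' * b' - q' * a' : ℤ) : ℚ) • θ (W2 X' Y') + ((q * b' - q' * b : ℤ) : ℚ) • θ (W2 Y Y') := by
  have hz : ∀ (n : ℤ) (u v : Additive Fˣ), θ (W2 (n • u) v) = (n : ℚ) • θ (W2 u v) := by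
    intro n u v
    rw [map_zsmul, AddMonoidHom.smul_apply, ← Int.cast_smul_eq_zsmul ℚ, map_smul]
  have hz' : ∀ (n : ℤ) (u v : Additive Fˣ), θ (W2 u (n • v)) = (n : ℚ) • θ (W2 u v) := by
    intro n u v
    rw [map_zsmul, ← Int.cast_smul_eq_zsmul ℚ, map_smul]
  have hs : ∀ u v : Additive Fˣ, θ (W2 u v) = - θ (W2 v u) := fun u v => by
    rw [W2_swap u v, map_neg]
  have hss : ∀ u : Additive Fˣ, θ (W2 u u) = 0 := fun u => by rw [W2_self, map_zero]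
  have ha : ∀ u u' v : Additive Fˣ, θ (W2 (u + u') v) = θ (W2 u v) + θ (W2 u' v) := fun u u' v => by
    rw [map_add, AddMonoidHom.add_apply, map_add]
  have ha' : ∀ u v v' : Additive Fˣ, θ (W2 u (v + v')) = θ (W2 u v) + θ (W2 u v') :=
    fun u v v' => by rw [map_add, map_add]
  have hm : ∀ v : Additive Fˣ, θ (W2 (lg (-1 : F)) v) = 0 := fun v => by rw [W2_m1, map_zero]
  rw [h, hV]
  simp only [ha, ha', hz, hz', hss, hm, smul_zero, add_zero, zero_add]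
  rw [hs X' X, hs Y X, hs Y' X, hs Y X', hs Y' X', hs Y' Y]
  push_cast
  module

end gen

section
variable {K : Type u} [Field K]

private lemma xk_sC_b3 (c : K) (x : P1 (RatFunc K)) : sC c 1 0 (b3 x) = b3 (spec c x) := by
  have e := sC_PB c 1 0 x (u0 (RatFunc K))
  rw [b3, b3]
  refine e.trans ?_
  congr 1
  rw [u0, sT_dm, u0]
  congr 1
  funext i
  exact i.elim0

private lemma xk_b3_zero {F : Type u} [Field F] : b3 (some 0 : P1 F) = 0 := by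
  rw [b3, cl_zero 2, map_zero]; rfl

private lemma xk_lgc (κ : K) : lg (RatFunc.C κ : RatFunc K) = rU (lg κ) := by
  rw [rU, resU_lg]

private lemma xk_Xne (x : K) : (RatFunc.X - RatFunc.C x : RatFunc K) ≠ 0 := by
  rw [← RatFunc.algebraMap_X, ← RatFunc.algebraMap_C, ← map_sub]
  exact RatFunc.algebraMap_ne_zero (X_sub_C_ne_zero x)

private lemma xk_Cne {x : K} (hx : x ≠ 0) : (RatFunc.C x : RatFunc K) ≠ 0 :=
  (_root_.map_ne_zero RatFunc.C).2 hx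

private lemma xk_one_sub_fy {a b : K} (hab : a ≠ b) :
    1 - fy a b = (RatFunc.X - RatFunc.C b) / RatFunc.C (a - b) := by
  have h1 := xk_Cne (sub_ne_zero.2 hab.symm)
  have h2 := xk_Cne (sub_ne_zero.2 hab)
  rw [fy, eq_div_iff h2, sub_mul, one_mul, div_mul_eq_mul_div, sub_eq_iff_eq_add,
    ← sub_eq_iff_eq_add', eq_div_iff h1]
  rw [map_sub, map_sub]
  ring

private lemma xk_fy_ne {a b : K} (hab : a ≠ b) : fy a b ≠ 0 :=
  div_ne_zero (xk_Xne a) (xk_Cne (sub_ne_zero.2 hab.symm))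

private lemma xk_fy_ne' {a b : K} (hab : a ≠ b) : 1 - fy a b ≠ 0 := by
  rw [xk_one_sub_fy hab]
  exact div_ne_zero (xk_Xne b) (xk_Cne (sub_ne_zero.2 hab))

private lemma xk_lg_one_sub_C (x : K) : lg (1 - RatFunc.C x : RatFunc K) = rU (lg (1 - x)) := by
  rw [← xk_lgc, map_sub, map_one]

private lemma xk_lg_C_sub_one (x : K) : lg (RatFunc.C x - 1 : RatFunc K) = rU (lg (x - 1)) := by
  rw [← xk_lgc, map_sub, map_one]

private lemma xk_spec_fy {a b : K} (hab : a ≠ b) : spec b (some (fy a b)) = some 1 := by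
  have h1 := sub_ne_zero.2 hab.symm
  have sX : spec b (some (RatFunc.X - RatFunc.C a : RatFunc K)) = some (b - a) := by
    have := spec_poly b (Polynomial.X - Polynomial.C a : K[X])
    rw [map_sub, RatFunc.algebraMap_X, RatFunc.algebraMap_C] at this
    simpa using this
  rw [fy, sp_div_some sX (spec_C b _) h1, div_self h1]

private lemma xk_spec_A {x a b : K} (hx1 : x ≠ 1) (hab : a ≠ b) :
    spec b (some (RatFunc.C x * (1 - fy a b) ^ 2 / (fy a b * (1 - RatFunc.C x) ^ 2))) = some 0 ∧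
    spec b (some (RatFunc.C x * fy a b)) = some x ∧
    spec b (some (RatFunc.C x / fy a b)) = some x ∧
    spec b (some (RatFunc.C x * (1 - fy a b) / (fy a b * (1 - RatFunc.C x)))) = some 0 ∧
    spec b (some (RatFunc.C x * (1 - fy a b) / (RatFunc.C x - 1))) = some 0 ∧
    spec b (some ((1 - fy a b) / (1 - RatFunc.C x))) = some 0 ∧
    spec b (some ((1 - fy a b) / (fy a b * (RatFunc.C x - 1)))) = some 0 := by
  have h1 := xk_spec_fy hab
  have h0 := spec_one_sub h1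
  rw [sub_self] at h0
  have hx := spec_C b x
  have hx' := spec_one_sub hx
  have hx'' := sp_sub_one hx
  have n1 : 1 - x ≠ 0 := sub_ne_zero.2 (Ne.symm hx1)
  have n2 : x - 1 ≠ 0 := sub_ne_zero.2 hx1
  refine ⟨?_, ?_, ?_, ?_, ?_, ?_, ?_⟩
  · rw [sq, sq, sp_div_some (sp_mul_some hx (sp_mul_some h0 h0))
      (sp_mul_some h1 (sp_mul_some hx' hx')) (mul_ne_zero one_ne_zero (mul_ne_zero n1 n1))]
    simp
  · rw [sp_mul_some hx h1, mul_one]
  · rw [sp_div_some hx h1 one_ne_zero, div_one]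
  · rw [sp_div_some (sp_mul_some hx h0) (sp_mul_some h1 hx') (mul_ne_zero one_ne_zero n1)]
    simp
  · rw [sp_div_some (sp_mul_some hx h0) hx'' n2]
    simp
  · rw [sp_div_some h0 hx' n1]
    simp
  · rw [sp_div_some h0 (sp_mul_some h1 hx'') (mul_ne_zero one_ne_zero n2)]
    simp

private lemma xk_lg_A {x a b : K} (hx0 : x ≠ 0) (hx1 : x ≠ 1) (hab : a ≠ b) :
    lg (RatFunc.C x * (1 - fy a b) ^ 2 / (fy a b * (1 - RatFunc.C x) ^ 2)) =
      rU (lg x) + (2 : ℤ) • lg (1 - fy a b) - (lg (fy a b) + (2 : ℤ) • rU (lg (1 - x))) ∧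
    lg (RatFunc.C x * fy a b) = rU (lg x) + lg (fy a b) ∧
    lg (RatFunc.C x / fy a b) = rU (lg x) - lg (fy a b) ∧
    lg (RatFunc.C x * (1 - fy a b) / (fy a b * (1 - RatFunc.C x))) =
      rU (lg x) + lg (1 - fy a b) - (lg (fy a b) + rU (lg (1 - x))) ∧
    lg (RatFunc.C x * (1 - fy a b) / (RatFunc.C x - 1)) =
      rU (lg x) + lg (1 - fy a b) - (lg (-1) + rU (lg (1 - x))) ∧
    lg ((1 - fy a b) / (1 - RatFunc.C x)) = lg (1 - fy a b) - rU (lg (1 - x)) ∧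
    lg ((1 - fy a b) / (fy a b * (RatFunc.C x - 1))) =
      lg (1 - fy a b) - (lg (fy a b) + (lg (-1) + rU (lg (1 - x)))) := by
  have nx := xk_Cne hx0
  have ny := xk_fy_ne hab
  have ny' := xk_fy_ne' hab
  have n1 : (1 - RatFunc.C x : RatFunc K) ≠ 0 := by
    rw [← map_one RatFunc.C, ← map_sub]
    exact xk_Cne (sub_ne_zero.2 (Ne.symm hx1))
  have n2 : (RatFunc.C x - 1 : RatFunc K) ≠ 0 := by
    rw [← map_one RatFunc.C, ← map_sub]
    exact xk_Cne (sub_ne_zero.2 hx1)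
  have e2 : lg (RatFunc.C x - 1 : RatFunc K) = lg (-1) + rU (lg (1 - x)) := by
    rw [← neg_sub, lg_neg' n1, xk_lg_one_sub_C]
  refine ⟨?_, ?_, ?_, ?_, ?_, ?_, ?_⟩
  · rw [lg_div (mul_ne_zero nx (pow_ne_zero 2 ny')) (mul_ne_zero ny (pow_ne_zero 2 n1)),
      lg_mul nx (pow_ne_zero 2 ny'), lg_mul ny (pow_ne_zero 2 n1), lg_pow _ two_ne_zero,
      lg_pow _ two_ne_zero, xk_lgc, xk_lg_one_sub_C]
    rfl
  · rw [lg_mul nx ny, xk_lgc]
  · rw [lg_div nx ny, xk_lgc]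
  · rw [lg_div (mul_ne_zero nx ny') (mul_ne_zero ny n1), lg_mul nx ny', lg_mul ny n1, xk_lgc,
      xk_lg_one_sub_C]
  · rw [lg_div (mul_ne_zero nx ny') n2, lg_mul nx ny', xk_lgc, e2]
  · rw [lg_div ny' n1, xk_lg_one_sub_C]
  · rw [lg_div ny' (mul_ne_zero ny n2), lg_mul ny n2, e2]


private lemma xk_rC (x : K) : rC 1 0 (b3 (some x)) = b3 (some (RatFunc.C x : RatFunc K)) := by
  have e := rC_PB 1 0 (some x) (u0 K)
  rw [b3, b3]
  refine e.trans ?_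
  rw [mapP_some]
  congr 1
  rw [u0, rT_dm, u0]
  congr 1
  funext i
  exact i.elim0

/-- the three-term relation of a constant -/
private lemma xk_three {a b : K} (hab : a ≠ b) {x : K} (hx0 : x ≠ 0) :
    b3 (some (RatFunc.C x : RatFunc K)) + b3 (some (1 - RatFunc.C x : RatFunc K)) +
      b3 (some (1 - (RatFunc.C x)⁻¹ : RatFunc K)) = b3 (some (1 : RatFunc K)) := by
  have h := congrArg (fun z => rC 1 0 (sC (a + (b - a) * x) 1 0 z)) (three3 hab)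
  have h1 := sub_ne_zero.2 hab.symm
  have sX : spec (a + (b - a) * x) (some (RatFunc.X - RatFunc.C a : RatFunc K)) =
      some ((b - a) * x) := by
    have := spec_poly (a + (b - a) * x) (Polynomial.X - Polynomial.C a : K[X])
    rw [map_sub, RatFunc.algebraMap_X, RatFunc.algebraMap_C] at this
    simpa using this
  have sy : spec (a + (b - a) * x) (some (fy a b)) = some x := by
    rw [fy, sp_div_some sX (spec_C _ _) h1, mul_div_cancel_left₀ _ h1]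
  have s1 := spec_one_sub sy
  have s2 := spec_one_sub (sp_inv_some sy hx0)
  simp only [map_add, xk_sC_b3, sy, s1, s2, spec_one, xk_rC] at h
  rw [map_sub, map_sub, map_one, map_inv₀] at h
  exact h

/-- `kappa(x)` -/
def kapp (a b x : K) : Cx 3 1 (RatFunc K) :=
  GG 3 (some (RatFunc.C x * (1 - fy a b) ^ 2 / (fy a b * (1 - RatFunc.C x) ^ 2)))
      (lg (1 - fy a b) - rU (lg (1 - x))) -
    GG 3 (some (RatFunc.C x * fy a b)) (lg (1 - fy a b) - rU (lg (1 - x))) +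
    GG 3 (some (RatFunc.C x / fy a b)) (lg (1 - fy a b) - rU (lg (1 - x))) -
    (2 : ℚ) • GG 3 (some (RatFunc.C x * (1 - fy a b) / (fy a b * (1 - RatFunc.C x))))
      (lg (1 - fy a b) - rU (lg (1 - x))) -
    (2 : ℚ) • (GG 3 (some (RatFunc.C x * (1 - fy a b) / (RatFunc.C x - 1))) (lg (fy a b)) -
      GG 3 (some (1 - (RatFunc.C x)⁻¹)) (lg (fy a b))) +
    (2 : ℚ) • (GG 3 (some ((1 - fy a b) / (fy a b * (RatFunc.C x - 1)))) (rU (lg x)) -
      GG 3 (some (RatFunc.C x * fy a b)) (rU (lg x)) -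
      GG 3 (some (1 - (fy a b)⁻¹)) (rU (lg x)))

private lemma xk_lgny {a b : K} (hab : a ≠ b) :
    lg (1 - (fy a b)⁻¹) = lg (-1) + lg (1 - fy a b) - lg (fy a b) := by
  have ny := xk_fy_ne hab
  have ny' := xk_fy_ne' hab
  have e : 1 - (fy a b)⁻¹ = -(1 - fy a b) / fy a b := by
    field_simp
    ring
  rw [e, lg_div (neg_ne_zero.2 ny') ny, lg_neg' ny']

private lemma xk_lgnx {x : K} (hx0 : x ≠ 0) (hx1 : x ≠ 1) :
    lg (1 - (RatFunc.C x)⁻¹ : RatFunc K) = lg (-1) + rU (lg (1 - x)) - rU (lg x) := by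
  have nx := xk_Cne hx0
  have n1 : (1 - RatFunc.C x : RatFunc K) ≠ 0 := by
    rw [← map_one RatFunc.C, ← map_sub]
    exact xk_Cne (sub_ne_zero.2 (Ne.symm hx1))
  have e : (1 - (RatFunc.C x)⁻¹ : RatFunc K) = -(1 - RatFunc.C x) / RatFunc.C x := by
    field_simp
    ring
  rw [e, lg_div (neg_ne_zero.2 n1) nx, lg_neg' n1, xk_lg_one_sub_C, xk_lgc]

/-- `d kappa(x)` -/
theorem d_kapp {x a b : K} (hx0 : x ≠ 0) (hx1 : x ≠ 1) (hab : a ≠ b) :
    dC 0 1 (kapp a b x) =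
      (2 : ℚ) • PB 2 2 (cl 2 (some (fy a b))) (W2 (rU (lg x)) (rU (lg (1 - x)))) -
      (2 : ℚ) • PB 2 2 (cl 2 (some (RatFunc.C x : RatFunc K)))
        (W2 (lg (fy a b)) (lg (1 - fy a b))) := by
  have q1 := r1 hx0 hx1 hab
  have q2 := r2 hx0 hx1 hab
  have q3 := r3 hx0 hx1 hab
  obtain ⟨l1, l2, l3, l4, l5, l6, l7⟩ := xk_lg_A hx0 hx1 hab
  have lny := xk_lgny hab
  have lnx := xk_lgnx hx0 hx1
  have qy : bb (some (1 - (fy a b)⁻¹)) = bb (some (fy a b)) := by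
    rw [eq_neg_of_add_eq_zero_right (bb_sub (fy a b)⁻¹),
      eq_neg_of_add_eq_zero_right (bb_inv (fy a b)), neg_neg]
  have qx : bb (some (1 - (RatFunc.C x : RatFunc K)⁻¹)) = bb (some (RatFunc.C x : RatFunc K)) := by
    rw [eq_neg_of_add_eq_zero_right (bb_sub (RatFunc.C x : RatFunc K)⁻¹),
      eq_neg_of_add_eq_zero_right (bb_inv (RatFunc.C x : RatFunc K)), neg_neg]
  rw [kapp]
  generalize RatFunc.C x * (1 - fy a b) ^ 2 / (fy a b * (1 - RatFunc.C x) ^ 2) = A1 at *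
  generalize RatFunc.C x * fy a b = A2 at *
  generalize RatFunc.C x / fy a b = A3 at *
  generalize RatFunc.C x * (1 - fy a b) / (fy a b * (1 - RatFunc.C x)) = A4 at *
  generalize RatFunc.C x * (1 - fy a b) / (RatFunc.C x - 1) = A5 at *
  generalize (1 - fy a b) / (1 - RatFunc.C x) = A6 at *
  generalize (1 - fy a b) / (fy a b * (RatFunc.C x - 1)) = A7 at *
  generalize 1 - (fy a b)⁻¹ = ny at *
  generalize 1 - (RatFunc.C x : RatFunc K)⁻¹ = nx at *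
  simp only [map_add, map_sub, map_smul, xk_d, lgP_some]
  generalize hX : rU (lg x) = X at *
  generalize hX' : rU (lg (1 - x)) = X' at *
  generalize hY : lg (fy a b) = Y at *
  generalize hY' : lg (1 - fy a b) = Y' at *
  have tnP : ∀ (A : P1 (RatFunc K)) (u v : Additive (RatFunc K)ˣ),
      tn 2 2 (W2 u v) (bb A) = PB 2 2 (cl 2 A) (W2 u v) := fun A u v => tn_PB 2 2 _ _
  have e1 := xk_ex (PB 2 2 (cl 2 (some A1))) (A := lg A1) (V := Y' - X') (X := X) (X' := X')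
    (Y := Y) (Y' := Y') 1 (-2) (-1) 2 0 0 (-1) 0 1 (by rw [l1]; module) (by module)
  have e2 := xk_ex (PB 2 2 (cl 2 (some A2))) (A := lg A2) (V := Y' - X') (X := X) (X' := X')
    (Y := Y) (Y' := Y') 1 0 1 0 0 0 (-1) 0 1 (by rw [l2]; module) (by module)
  have e3 := xk_ex (PB 2 2 (cl 2 (some A3))) (A := lg A3) (V := Y' - X') (X := X) (X' := X')
    (Y := Y) (Y' := Y') 1 0 (-1) 0 0 0 (-1) 0 1 (by rw [l3]; module) (by module)
  have e4 := xk_ex (PB 2 2 (cl 2 (some A4))) (A := lg A4) (V := Y' - X') (X := X) (X' := X')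
    (Y := Y) (Y' := Y') 1 (-1) (-1) 1 0 0 (-1) 0 1 (by rw [l4]; module) (by module)
  have e5 := xk_ex (PB 2 2 (cl 2 (some A5))) (A := lg A5) (V := Y) (X := X) (X' := X')
    (Y := Y) (Y' := Y') 1 (-1) 0 1 (-1) 0 0 1 0 (by rw [l5]; module) (by module)
  have e6 := xk_ex (PB 2 2 (cl 2 (some nx))) (A := lg nx) (V := Y) (X := X) (X' := X')
    (Y := Y) (Y' := Y') (-1) 1 0 0 1 0 0 1 0 (by rw [lnx]; module) (by module)
  have e7 := xk_ex (PB 2 2 (cl 2 (some A7))) (A := lg A7) (V := X) (X := X) (X' := X')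
    (Y := Y) (Y' := Y') 0 (-1) (-1) 1 (-1) 1 0 0 0 (by rw [l7]; module) (by module)
  have e8 := xk_ex (PB 2 2 (cl 2 (some A2))) (A := lg A2) (V := X) (X := X) (X' := X')
    (Y := Y) (Y' := Y') 1 0 1 0 0 1 0 0 0 (by rw [l2]; module) (by module)
  have e9 := xk_ex (PB 2 2 (cl 2 (some ny))) (A := lg ny) (V := X) (X := X) (X' := X')
    (Y := Y) (Y' := Y') 0 0 (-1) 1 1 1 0 0 0 (by rw [lny]; module) (by module)
  have f1 : ∀ u v : Additive (RatFunc K)ˣ, _ := fun u v => congrArg (tn 2 2 (W2 u v)) q1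
  have f2 : ∀ u v : Additive (RatFunc K)ˣ, _ := fun u v => congrArg (tn 2 2 (W2 u v)) q2
  have f3 : ∀ u v : Additive (RatFunc K)ˣ, _ := fun u v => congrArg (tn 2 2 (W2 u v)) q3
  have fy' : ∀ u v : Additive (RatFunc K)ˣ, _ := fun u v => congrArg (tn 2 2 (W2 u v)) qy
  have fx' : ∀ u v : Additive (RatFunc K)ˣ, _ := fun u v => congrArg (tn 2 2 (W2 u v)) qx
  simp only [map_add, map_sub, map_smul, tnP] at f1 f2 f3 fy' fx'
  norm_num at e1 e2 e3 e4 e5 e6 e7 e8 e9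
  rw [e1, e2, e3, e4, e5, e6, e7, e8, e9]
  linear_combination (norm := module) f1 X Y' - f2 X Y' + f2 X X' - f1 X X' - f1 Y Y' - f3 Y Y' -
    f1 X' Y - f3 X' Y + f2 X Y + f3 X Y + (2 : ℚ) • fx' X' Y - (2 : ℚ) • fx' X Y +
    (2 : ℚ) • fy' X Y' - (2 : ℚ) • fy' X Y


/-- the algebra of `X ∧ kappa(x)` -/
private lemma xk_alg {F : Type u} [Field F] (A1 A2 A3 A4 A5 A6 A7 cx mx nx y my ny : F)
    (X X' Y Y' : Additive Fˣ)
    (l1 : lg A1 = X + (2 : ℤ) • Y' - (Y + (2 : ℤ) • X'))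
    (l2 : lg A2 = X + Y)
    (l3 : lg A3 = X - Y)
    (l4 : lg A4 = X + Y' - (Y + X'))
    (l5 : lg A5 = X + Y' - (lg (-1) + X'))
    (l6 : lg A6 = Y' - X')
    (l7 : lg A7 = Y' - (Y + (lg (-1) + X')))
    (hY : lg y = Y) (hY' : lg my = Y') (lny : lg ny = lg (-1) + Y' - Y)
    (lmx : lg mx = X') (lnx : lg nx = lg (-1) + X' - X)
    (hSK : b3 (some A1) + b3 (some A2) + b3 (some A3) - (2 : ℚ) • b3 (some A4) -
      (2 : ℚ) • b3 (some A5) - (2 : ℚ) • b3 (some A6) - (2 : ℚ) • b3 (some A7) -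
      (2 : ℚ) • b3 (some cx) - (2 : ℚ) • b3 (some y) + (2 : ℚ) • b3 (some (1 : F)) = 0)
    (hy : b3 (some y) + b3 (some my) + b3 (some ny) = b3 (some (1 : F)))
    (hx : b3 (some cx) + b3 (some mx) + b3 (some nx) = b3 (some (1 : F))) :
    (2 : ℚ) • PB 3 2 (cl 3 (some cx)) (W2 Y Y') -
      wC 3 1 X (GG 3 (some A1) (Y' - X') - GG 3 (some A2) (Y' - X') + GG 3 (some A3) (Y' - X') -
        (2 : ℚ) • GG 3 (some A4) (Y' - X') -
        (2 : ℚ) • (GG 3 (some A5) Y - GG 3 (some nx) Y) +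
        (2 : ℚ) • (GG 3 (some A7) X - GG 3 (some A2) X - GG 3 (some ny) X)) ∈
      LinearMap.range (dC 1 1 : Cx 4 1 F →ₗ[ℚ] Cx 3 2 F) := by
  rw [← Submodule.Quotient.mk_eq_zero, ← Submodule.mkQ_apply]
  simp only [map_add, map_sub, map_smul, xk_w]
  have tnP : ∀ (A : P1 F) (u v : Additive Fˣ),
      tn 3 2 (W2 u v) (b3 A) = PB 3 2 (cl 3 A) (W2 u v) := fun A u v => tn_PB 3 2 _ _
  have hrel : ∀ (A : P1 F) (v : Additive Fˣ),
    (LinearMap.range (dC 1 1 : Cx 4 1 F →ₗ[ℚ] Cx 3 2 F)).mkQ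
      (PB 3 2 (cl 3 A) (W2 (lgP A) v)) = 0 := xk_r
  generalize (LinearMap.range (dC 1 1 : Cx 4 1 F →ₗ[ℚ] Cx 3 2 F)).mkQ = π at *
  have fS : ∀ u v : Additive Fˣ, π (PB 3 2 (cl 3 (some A1)) (W2 u v)) +
      π (PB 3 2 (cl 3 (some A2)) (W2 u v)) + π (PB 3 2 (cl 3 (some A3)) (W2 u v)) -
      (2 : ℚ) • π (PB 3 2 (cl 3 (some A4)) (W2 u v)) -
      (2 : ℚ) • π (PB 3 2 (cl 3 (some A5)) (W2 u v)) -
      (2 : ℚ) • π (PB 3 2 (cl 3 (some A6)) (W2 u v)) -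
      (2 : ℚ) • π (PB 3 2 (cl 3 (some A7)) (W2 u v)) -
      (2 : ℚ) • π (PB 3 2 (cl 3 (some cx)) (W2 u v)) -
      (2 : ℚ) • π (PB 3 2 (cl 3 (some y)) (W2 u v)) +
      (2 : ℚ) • π (PB 3 2 (cl 3 (some (1 : F))) (W2 u v)) = 0 := fun u v => by
    have h := congrArg (fun z => π (tn 3 2 (W2 u v) z)) hSK
    simp only [map_add, map_sub, map_smul, map_zero, tnP] at h
    exact h
  have fy' : ∀ u v : Additive Fˣ, π (PB 3 2 (cl 3 (some y)) (W2 u v)) +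
      π (PB 3 2 (cl 3 (some my)) (W2 u v)) + π (PB 3 2 (cl 3 (some ny)) (W2 u v)) =
      π (PB 3 2 (cl 3 (some (1 : F))) (W2 u v)) := fun u v => by
    have h := congrArg (fun z => π (tn 3 2 (W2 u v) z)) hy
    simp only [map_add, tnP] at h
    exact h
  have fx' : ∀ u v : Additive Fˣ, π (PB 3 2 (cl 3 (some cx)) (W2 u v)) +
      π (PB 3 2 (cl 3 (some mx)) (W2 u v)) + π (PB 3 2 (cl 3 (some nx)) (W2 u v)) =
      π (PB 3 2 (cl 3 (some (1 : F))) (W2 u v)) := fun u v => by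
    have h := congrArg (fun z => π (tn 3 2 (W2 u v) z)) hx
    simp only [map_add, tnP] at h
    exact h
  have rel : ∀ (A : F) (p p' q q' r : ℤ),
      lg A = p • X + p' • X' + q • Y + q' • Y' + r • lg (-1 : F) →
      (-(p' : ℚ)) • π (PB 3 2 (cl 3 (some A)) (W2 X X')) -
        (q : ℚ) • π (PB 3 2 (cl 3 (some A)) (W2 X Y)) -
        (q' : ℚ) • π (PB 3 2 (cl 3 (some A)) (W2 X Y')) = 0 ∧
      (p : ℚ) • π (PB 3 2 (cl 3 (some A)) (W2 X X')) -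
        (q : ℚ) • π (PB 3 2 (cl 3 (some A)) (W2 X' Y)) -
        (q' : ℚ) • π (PB 3 2 (cl 3 (some A)) (W2 X' Y')) = 0 ∧
      (p : ℚ) • π (PB 3 2 (cl 3 (some A)) (W2 X Y)) +
        (p' : ℚ) • π (PB 3 2 (cl 3 (some A)) (W2 X' Y)) -
        (q' : ℚ) • π (PB 3 2 (cl 3 (some A)) (W2 Y Y')) = 0 ∧
      (p : ℚ) • π (PB 3 2 (cl 3 (some A)) (W2 X Y')) +
        (p' : ℚ) • π (PB 3 2 (cl 3 (some A)) (W2 X' Y')) +
        (q : ℚ) • π (PB 3 2 (cl 3 (some A)) (W2 Y Y')) = 0 := by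
    intro A p p' q q' r h
    exact xk_four (π ∘ₗ (PB 3 2 (cl 3 (some A)))) p p' q q' r h (fun v => hrel (some A) v)
  obtain ⟨-, b1, -, c1⟩ := rel A1 1 (-2) (-1) 2 0 (by rw [l1]; module)
  obtain ⟨-, b2, -, c2⟩ := rel A2 1 0 1 0 0 (by rw [l2]; module)
  obtain ⟨-, b3', -, c3⟩ := rel A3 1 0 (-1) 0 0 (by rw [l3]; module)
  obtain ⟨-, b4, -, c4⟩ := rel A4 1 (-1) (-1) 1 0 (by rw [l4]; module)
  obtain ⟨-, -, d5, -⟩ := rel A5 1 (-1) 0 1 (-1) (by rw [l5]; module)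
  obtain ⟨-, -, d6, -⟩ := rel A6 0 (-1) 0 1 0 (by rw [l6]; module)
  obtain ⟨-, b7, -, c7⟩ := rel A7 0 (-1) (-1) 1 (-1) (by rw [l7]; module)
  obtain ⟨-, byy, -, cyy⟩ := rel y 0 0 1 0 0 (by rw [hY]; module)
  obtain ⟨-, -, dmy, -⟩ := rel my 0 0 0 1 0 (by rw [hY']; module)
  obtain ⟨-, -, dny, -⟩ := rel ny 0 0 (-1) 1 1 (by rw [lny]; module)
  obtain ⟨-, -, dmx, -⟩ := rel mx 0 1 0 0 0 (by rw [lmx]; module)
  obtain ⟨-, -, dnx, -⟩ := rel nx (-1) 1 0 0 1 (by rw [lnx]; module)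
  push_cast at b1 c1 b2 c2 b3' c3 b4 c4 d5 d6 b7 c7 byy cyy dmy dny dmx dnx
  have s0 : ∀ (A : P1 F), π (PB 3 2 (cl 3 A) (W2 X X)) = 0 := fun A => by
    rw [W2_self, map_zero, map_zero]
  simp only [s0]
  have FS1 := fS Y Y'
  have FS2 := fS X' Y
  have FY := fy' Y Y'
  have FX := fx' X' Y
  linear_combination (norm := module) (-1 : ℚ) • FS1 - c1 + b1 + c2 - c3 + (2 : ℚ) • c4 -
    (2 : ℚ) • b4 + (2 : ℚ) • d5 + (2 : ℚ) • d6 + (2 : ℚ) • c7 - (2 : ℚ) • b7 - (2 : ℚ) • cyy +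
    (2 : ℚ) • cyy - (2 : ℚ) • dmy - (2 : ℚ) • dny - (2 : ℚ) • FY - FS2 - b2 + b3' +
    (2 : ℚ) • byy + (2 : ℚ) • dmx + (2 : ℚ) • dnx - (2 : ℚ) • FX

/-- `X ∧ kappa(x)` -/
theorem X_kapp {x a b : K} (hx0 : x ≠ 0) (hx1 : x ≠ 1) (hab : a ≠ b) :
    (2 : ℚ) • PB 3 2 (cl 3 (some (RatFunc.C x : RatFunc K)))
        (W2 (lg (fy a b)) (lg (1 - fy a b))) - wC 3 1 (rU (lg x)) (kapp a b x) ∈
      LinearMap.range (dC 1 1 : Cx 4 1 (RatFunc K) →ₗ[ℚ] Cx 3 2 (RatFunc K)) := by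
  obtain ⟨l1, l2, l3, l4, l5, l6, l7⟩ := xk_lg_A hx0 hx1 hab
  rw [kapp]
  exact xk_alg _ _ _ _ _ _ _ _ (1 - RatFunc.C x) _ _ (1 - fy a b) _ _ _ _ _ l1 l2 l3 l4 l5 l6 l7
    rfl rfl (xk_lgny hab) (xk_lg_one_sub_C x) (xk_lgnx hx0 hx1) (SK hx0 hx1 hab) (three3 hab)
    (xk_three hab hx0)

private lemma xk_mem {F : Type u} [Field F] (A : P1 F) (v : Additive Fˣ) :
    PB 3 2 (cl 3 A) (W2 (lgP A) v) ∈ LinearMap.range (dC 1 1 : Cx 4 1 F →ₗ[ℚ] Cx 3 2 F) := by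
  refine ⟨PB 4 1 (cl 4 A) (wT 0 v (u0 _)), ?_⟩
  have e := dC_PB 1 1 A (wT 0 v (u0 _))
  rw [e]
  rfl

/-- `{1}_3 ⊗ Y ∧ Y'` is a boundary -/
theorem one_mem_range {a b : K} (hab : a ≠ b) :
    PB 3 2 (cl 3 (some (1 : RatFunc K))) (W2 (lg (fy a b)) (lg (1 - fy a b))) ∈
      LinearMap.range (dC 1 1 : Cx 4 1 (RatFunc K) →ₗ[ℚ] Cx 3 2 (RatFunc K)) := by
  have tnP : ∀ (A : P1 (RatFunc K)) (u v : Additive (RatFunc K)ˣ),
      tn 3 2 (W2 u v) (b3 A) = PB 3 2 (cl 3 A) (W2 u v) := fun A u v => tn_PB 3 2 _ _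
  have h := congrArg (tn 3 2 (W2 (lg (fy a b)) (lg (1 - fy a b)))) (three3 hab)
  rw [map_add, map_add, tnP, tnP, tnP, tnP] at h
  rw [← h]
  have m1 := xk_mem (some (fy a b)) (lg (1 - fy a b))
  have m2 := xk_mem (some (1 - fy a b)) (lg (fy a b))
  have m3 := xk_mem (some (1 - (fy a b)⁻¹)) (lg (fy a b))
  rw [lgP_some] at m1 m2 m3
  rw [xk_lgny hab, map_sub, map_add, AddMonoidHom.sub_apply, AddMonoidHom.add_apply, W2_m1,
    W2_self, zero_add, sub_zero, W2_swap, map_neg] at m3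
  rw [W2_swap, map_neg] at m2
  have m2' := neg_mem m2
  have m3' := neg_mem m3
  rw [neg_neg] at m2' m3'
  exact add_mem (add_mem m1 m2') m3'

end

end NFA
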