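import Pool.Agent.NFA.Defs
import Pool.Agent.NFA.XK

set_option autoImplicit false

/-!
# NFA-N5: the differential of `kk x`
-/

noncomputable section

open Polynomial TensorProduct
open scoped Classical

namespace NFA

open Helper14.Gon Helper14.W4 Helper42.LT

universe u v w

variable {K : Type u} [Field K]

private lemma N5_lgC (x : K) : lg (RatFunc.C x : RatFunc K) = rU (lg x) := by
  rw [rU, resU_lg]

private lemma N5_lg1C (x : K) : lg (1 - RatFunc.C x : RatFunc K) = rU (lg (1 - x)) := by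
  rw [← N5_lgC, map_sub, map_one]

lemma N5_kk {x : K} (hx0 : x ≠ 0) (hx1 : x ≠ 1) : kk x = kapp 0 1 x := by
  rw [kk, if_neg (by tauto), kapp, N5_lgC, N5_lg1C]
  rfl

private lemma N5_lg1 {F : Type u} [Field F] : lg (1 : F) = 0 := by
  have h := lg_mul (one_ne_zero : (1 : F) ≠ 0) one_ne_zero
  rw [mul_one] at h
  exact (left_eq_add.1 h)

theorem d_kk (x : K) : dC 0 1 (kk x) =
    (2 : ℚ) • PB 2 2 (cl 2 (some (yt K))) (W2 (lg (RatFunc.C x)) (lg (1 - RatFunc.C x))) -
    (2 : ℚ) • PB 2 2 (cl 2 (some (RatFunc.C x))) (W2 (lg (yt K)) (lg (1 - yt K))) := by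
  by_cases hx0 : x = 0
  · subst hx0
    rw [kk, if_pos (Or.inl rfl), map_zero, map_zero, sub_zero, N5_lg1, map_zero, map_zero,
      cl_zero 1, map_zero, LinearMap.zero_apply, smul_zero, sub_zero]
  by_cases hx1 : x = 1
  · subst hx1
    have hb : (tn 2 2 (W2 (lg (yt K)) (lg (1 - yt K)))) (bb (some (1 : RatFunc K))) = 0 := by
      rw [bb_one, map_zero]
    rw [bb, tn_PB] at hb
    rw [kk, if_pos (Or.inr rfl), map_zero, map_one, sub_self, N5_lg1, map_zero,
      AddMonoidHom.zero_apply, map_zero, smul_zero, hb, smul_zero, sub_zero]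
  rw [N5_kk hx0 hx1, d_kapp hx0 hx1 zero_ne_one, N5_lgC, N5_lg1C]
  rfl

end NFA
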