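import Pool.Agent.NFA.Defs

set_option autoImplicit false

/-!
# NFA-N5s: `kk x` is split

All entries `A_i`, `1 - A_i` of `kk x` are products of constants, `t`, `1 - t`, `t - x`, `1 - x t`.
-/

noncomputable section

open Polynomial TensorProduct
open scoped Classical

namespace NFA

open Helper14.Gon Helper14.W4 Helper42.LT

universe u v w

variable {K : Type u} [Field K]

private lemma n5s_C (c : K) : lg (RatFunc.C c : RatFunc K) ∈ SU K := by
  by_cases h : c = 0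
  · subst h
    rw [map_zero, lg_zero]
    exact zero_mem _
  · refine AddSubgroup.subset_closure (Or.inl ⟨lg c, ?_⟩)
    rw [rU, resU_lg]

private lemma n5s_X (a : K) : lg (RatFunc.X - RatFunc.C a : RatFunc K) ∈ SU K :=
  AddSubgroup.subset_closure (Or.inr ⟨a, rfl⟩)

private lemma n5s_mul {f g : RatFunc K} (hf : lg f ∈ SU K) (hg : lg g ∈ SU K) :
    lg (f * g) ∈ SU K := by
  by_cases h : f = 0
  · rw [h, zero_mul, lg_zero]; exact zero_mem _
  · by_cases h' : g = 0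
    · rw [h', mul_zero, lg_zero]; exact zero_mem _
    · rw [lg_mul h h']; exact add_mem hf hg

private lemma n5s_inv {f : RatFunc K} (hf : lg f ∈ SU K) : lg f⁻¹ ∈ SU K := by
  rw [lg_inv]; exact neg_mem hf

private lemma n5s_div {f g : RatFunc K} (hf : lg f ∈ SU K) (hg : lg g ∈ SU K) :
    lg (f / g) ∈ SU K := by
  rw [div_eq_mul_inv]
  exact n5s_mul hf (n5s_inv hg)

private lemma n5s_yt : yt K = RatFunc.X := by
  simp [yt, fy]

private lemma n5s_Y : lg (yt K) ∈ SU K := by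
  have h := n5s_X (0 : K)
  rwa [map_zero, sub_zero, ← n5s_yt] at h

private lemma n5s_V : lg (1 - yt K) ∈ SU K := by
  have h := n5s_mul (n5s_C (-1 : K)) (n5s_X (1 : K))
  have e : (RatFunc.C (-1 : K) * (RatFunc.X - RatFunc.C (1 : K)) : RatFunc K) = 1 - yt K := by
    rw [n5s_yt, map_neg, map_one]; ring
  rwa [e] at h

private lemma n5s_M (x : K) : lg (1 - RatFunc.C x : RatFunc K) ∈ SU K := by
  have e : (1 - RatFunc.C x : RatFunc K) = RatFunc.C (1 - x) := by rw [map_sub, map_one]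
  rw [e]
  exact n5s_C _

private lemma n5s_M' (x : K) : lg (RatFunc.C x - 1 : RatFunc K) ∈ SU K := by
  have e : (RatFunc.C x - 1 : RatFunc K) = RatFunc.C (x - 1) := by rw [map_sub, map_one]
  rw [e]
  exact n5s_C _

private lemma n5s_P (x : K) : lg (yt K - RatFunc.C x) ∈ SU K := by
  rw [n5s_yt]; exact n5s_X x

private lemma n5s_Q {x : K} (hx : x ≠ 0) : lg (1 - RatFunc.C x * yt K) ∈ SU K := by
  have h := n5s_mul (n5s_C (-x)) (n5s_X x⁻¹)
  have h0 : (RatFunc.C x : RatFunc K) ≠ 0 := (_root_.map_ne_zero RatFunc.C).2 hx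
  have e : (RatFunc.C (-x) * (RatFunc.X - RatFunc.C x⁻¹) : RatFunc K) =
      1 - RatFunc.C x * yt K := by
    rw [n5s_yt, map_neg, map_inv₀]; field_simp; ring
  rwa [e] at h

private lemma n5s_GG {f : RatFunc K} {g : Additive (RatFunc K)ˣ} (h1 : lg f ∈ SU K)
    (h2 : lg (1 - f) ∈ SU K) (hg : g ∈ SU K) : GG 3 (some f) g ∈ S31 K :=
  Submodule.subset_span ⟨f, g, ⟨h1, h2⟩, hg, rfl⟩

theorem kk_S31 (x : K) : kk x ∈ S31 K := by
  rw [kk]
  split_ifs with hx
  · exact zero_mem _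
  obtain ⟨hx0, hx1⟩ := not_or.1 hx
  have hC0 : (RatFunc.C x : RatFunc K) ≠ 0 := (_root_.map_ne_zero RatFunc.C).2 hx0
  have hM : (1 - RatFunc.C x : RatFunc K) ≠ 0 := by
    have e : (1 - RatFunc.C x : RatFunc K) = RatFunc.C (1 - x) := by rw [map_sub, map_one]
    rw [e]
    exact (_root_.map_ne_zero RatFunc.C).2 (sub_ne_zero.2 (Ne.symm hx1))
  have hM' : (RatFunc.C x - 1 : RatFunc K) ≠ 0 := by
    rw [← neg_sub]; exact neg_ne_zero.2 hM
  have hY : yt K ≠ 0 := by rw [n5s_yt]; exact RatFunc.X_ne_zero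
  have pC := n5s_C x
  have pY := n5s_Y (K := K)
  have pV := n5s_V (K := K)
  have pM := n5s_M x
  have pM' := n5s_M' x
  have pP := n5s_P x
  have pQ := n5s_Q hx0
  have pg : lg (1 - yt K) - lg (1 - RatFunc.C x) ∈ SU K := sub_mem pV pM
  have e1 : 1 - RatFunc.C x * (1 - yt K) ^ 2 / (yt K * (1 - RatFunc.C x) ^ 2) =
      (yt K - RatFunc.C x) * (1 - RatFunc.C x * yt K) /
        (yt K * ((1 - RatFunc.C x) * (1 - RatFunc.C x))) := by
    field_simp; ring
  have e3 : 1 - RatFunc.C x / yt K = (yt K - RatFunc.C x) / yt K := by field_simp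
  have e4 : 1 - RatFunc.C x * (1 - yt K) / (yt K * (1 - RatFunc.C x)) =
      (yt K - RatFunc.C x) / (yt K * (1 - RatFunc.C x)) := by
    field_simp; ring
  have e5 : 1 - RatFunc.C x * (1 - yt K) / (RatFunc.C x - 1) =
      (RatFunc.C x * yt K - 1) / (RatFunc.C x - 1) := by
    field_simp; ring
  have e5' : lg (RatFunc.C x * yt K - 1) ∈ SU K := by
    have h := n5s_mul (n5s_C (-1 : K)) pQ
    have e : (RatFunc.C (-1 : K) * (1 - RatFunc.C x * yt K) : RatFunc K) =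
        RatFunc.C x * yt K - 1 := by
      rw [map_neg, map_one]; ring
    rwa [e] at h
  have e7 : 1 - (1 - yt K) / (yt K * (RatFunc.C x - 1)) =
      (RatFunc.C x * yt K - 1) / (yt K * (RatFunc.C x - 1)) := by
    field_simp; ring
  have e8 : 1 - (1 - (RatFunc.C x)⁻¹) = (RatFunc.C x : RatFunc K)⁻¹ := by ring
  have e8' : (1 - (RatFunc.C x)⁻¹ : RatFunc K) = (RatFunc.C x - 1) / RatFunc.C x := by
    field_simp
  have e9 : 1 - (1 - (yt K)⁻¹) = (yt K)⁻¹ := by ring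
  have e9' : (1 - (yt K)⁻¹ : RatFunc K) = (yt K - RatFunc.C 1) / yt K := by
    rw [map_one]; field_simp
  have s1 : GG 3 (some (RatFunc.C x * (1 - yt K) ^ 2 / (yt K * (1 - RatFunc.C x) ^ 2)))
        (lg (1 - yt K) - lg (1 - RatFunc.C x)) ∈ S31 K := by
    refine n5s_GG ?_ ?_ pg
    · rw [pow_two, pow_two]
      exact n5s_div (n5s_mul pC (n5s_mul pV pV)) (n5s_mul pY (n5s_mul pM pM))
    · rw [e1]
      exact n5s_div (n5s_mul pP pQ) (n5s_mul pY (n5s_mul pM pM))
  have s2 : ∀ g ∈ SU K, GG 3 (some (RatFunc.C x * yt K)) g ∈ S31 K := fun g hg =>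
    n5s_GG (n5s_mul pC pY) pQ hg
  have s3 : GG 3 (some (RatFunc.C x / yt K)) (lg (1 - yt K) - lg (1 - RatFunc.C x)) ∈ S31 K := by
    refine n5s_GG (n5s_div pC pY) ?_ pg
    rw [e3]
    exact n5s_div pP pY
  have s4 : GG 3 (some (RatFunc.C x * (1 - yt K) / (yt K * (1 - RatFunc.C x))))
        (lg (1 - yt K) - lg (1 - RatFunc.C x)) ∈ S31 K := by
    refine n5s_GG (n5s_div (n5s_mul pC pV) (n5s_mul pY pM)) ?_ pg
    rw [e4]
    exact n5s_div pP (n5s_mul pY pM)
  have s5 : GG 3 (some (RatFunc.C x * (1 - yt K) / (RatFunc.C x - 1))) (lg (yt K)) ∈ S31 K := by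
    refine n5s_GG (n5s_div (n5s_mul pC pV) pM') ?_ pY
    rw [e5]
    exact n5s_div e5' pM'
  have s6 : GG 3 (some (1 - (RatFunc.C x)⁻¹)) (lg (yt K)) ∈ S31 K := by
    refine n5s_GG ?_ ?_ pY
    · rw [e8']
      exact n5s_div pM' pC
    · rw [e8]
      exact n5s_inv pC
  have s7 : GG 3 (some ((1 - yt K) / (yt K * (RatFunc.C x - 1)))) (lg (RatFunc.C x)) ∈ S31 K := by
    refine n5s_GG (n5s_div pV (n5s_mul pY pM')) ?_ pC
    rw [e7]
    exact n5s_div e5' (n5s_mul pY pM')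
  have s8 : GG 3 (some (1 - (yt K)⁻¹)) (lg (RatFunc.C x)) ∈ S31 K := by
    refine n5s_GG ?_ ?_ pC
    · rw [e9']
      exact n5s_div (n5s_P 1) pY
    · rw [e9]
      exact n5s_inv pY
  refine add_mem (sub_mem (sub_mem (add_mem (sub_mem s1 (s2 _ pg)) s3) ?_) ?_) ?_
  · exact Submodule.smul_mem _ _ s4
  · exact Submodule.smul_mem _ _ (sub_mem s5 s6)
  · exact Submodule.smul_mem _ _ (sub_mem (sub_mem s7 (s2 _ pC)) s8)

end NFA
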