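import Pool.Agent.NFA.N5

set_option autoImplicit false

/-!
# NFA-N6: `2 {x}_3 ⊗ t ∧ (1 - t)` is `x ∧ kk x` modulo boundaries
-/

noncomputable section

open Polynomial TensorProduct
open scoped Classical

namespace NFA

open Helper14.Gon Helper14.W4 Helper42.LT

universe u v w

variable {K : Type u} [Field K]

private lemma N6_lgC (x : K) : lg (RatFunc.C x : RatFunc K) = rU (lg x) := by
  rw [rU, resU_lg]

theorem X_kk (x : K) :
    (2 : ℚ) • PB 3 2 (cl 3 (some (RatFunc.C x : RatFunc K))) (W2 (lg (yt K)) (lg (1 - yt K))) -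
      wC 3 1 (lg (RatFunc.C x)) (kk x) ∈
    LinearMap.range (dC 1 1 : Cx 4 1 (RatFunc K) →ₗ[ℚ] _) := by
  by_cases hx0 : x = 0
  · subst hx0
    rw [kk, if_pos (Or.inl rfl), map_zero, map_zero, sub_zero, cl_zero 2, map_zero,
      LinearMap.zero_apply, smul_zero]
    exact zero_mem _
  by_cases hx1 : x = 1
  · subst hx1
    rw [kk, if_pos (Or.inr rfl), map_zero, sub_zero, map_one]
    exact Submodule.smul_mem _ _ (one_mem_range zero_ne_one)
  rw [N5_kk hx0 hx1, N6_lgC]
  exact X_kapp hx0 hx1 zero_ne_one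

end NFA
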