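import Pool.Agent.NFA.N3b
import Pool.Agent.NFA.N4
import Pool.Agent.NFA.N5
import Pool.Agent.NFA.N5s

set_option autoImplicit false

/-!
# NFA-N7a: `kk` of a relation in `B_2(K)`

A split cocycle lies in `LW` (`lead_split` and `const_split`). For `α ∈ R 2 K` the element
`∑ n_x kk x` is split, and a cocycle by `d_kk`.
-/

noncomputable section

open Polynomial TensorProduct
open scoped Classical

namespace NFA

open Helper14.Gon Helper14.W4 Helper42.LT

universe u v w

variable {K : Type u} [Field K]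

private lemma n7a_dC (w : Cx 4 0 (RatFunc K)) (hw : w ∈ S40 K) : dC 1 0 w ∈ S31 K := by
  refine Submodule.span_induction (p := fun w _ => dC 1 0 w ∈ S31 K) ?_ ?_ ?_ ?_ hw
  · rintro w ⟨x, hx, rfl⟩
    have e : dC 1 0 (PB 4 0 (cl 4 (some x)) (u0 (RatFunc K))) = GG 3 (some x) (lg x) :=
      dC_PB 1 0 (some x) _
    rw [e]
    exact Submodule.subset_span ⟨x, lg x, hx, hx.1, rfl⟩
  · rw [map_zero]; exact zero_mem _
  · intro a b _ _ ha hb
    rw [map_add]; exact add_mem ha hb
  · intro q a _ ha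
    rw [map_smul]; exact Submodule.smul_mem _ _ ha

/-- a split cocycle in `B_3 ⊗ K(t)^*` -/
theorem mem_LW_split {z : Cx 3 1 (RatFunc K)} (hz : z ∈ S31 K) (hd : dC 0 1 z = 0) :
    z ∈ LW K 0 := by
  obtain ⟨w, hw, hm⟩ := lead_split hz hd
  have h1 : z - dC 1 0 w ∈ S31 K := sub_mem hz (n7a_dC w hw)
  have h2 : dC 0 1 (z - dC 1 0 w) = 0 := by
    have := LinearMap.congr_fun (dC_dC (F := RatFunc K) 0 0) w
    rw [LinearMap.comp_apply, LinearMap.zero_apply] at this
    rw [map_sub, hd, this, sub_zero]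
  have h3 : mm (z - dC 1 0 w) = 0 := by rw [map_sub, hm, sub_self]
  have h4 := const_split h1 h2 h3
  have h5 : dC 1 0 w ∈ LW K 0 :=
    Submodule.mem_sup_left (Submodule.mem_sup_left ⟨w, rfl⟩)
  have h6 := add_mem h4 h5
  rwa [sub_add_cancel] at h6

private lemma n7a_S31 (α : ZP K) : ext (kP : P1 K → Cx 3 1 (RatFunc K)) α ∈ S31 K := by
  induction α using Finsupp.induction_linear with
  | zero => rw [map_zero]; exact zero_mem _
  | add a b ha hb => rw [map_add]; exact add_mem ha hb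
  | single x m =>
    rw [ext_single]
    refine zsmul_mem ?_ m
    rcases x with _ | x
    · exact zero_mem _
    · exact kk_S31 x

private lemma n7a_rT (v v' : Additive Kˣ) : rT 2 (W2 v v') = W2 (rU v) (rU v') := by
  rw [W2_apply, W2_apply]
  refine (rT_wT 1 v _).trans ?_
  congr 1
  refine (rT_wT 0 v' _).trans ?_
  congr 1
  rw [u0, rT_dm, u0]
  congr 1
  funext i
  exact i.elim0

/-- the differential of `∑ n_x kk x` -/
private def n7a_G : B 2 K →+ Cx 2 2 (RatFunc K) :=
  AddMonoidHom.mk' (fun b => (2 : ℚ) • PB 2 2 (cl 2 (some (yt K)))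
      (-(rT 2 (dT 0 (PB 2 0 b (u0 K))))) -
    (2 : ℚ) • PB 2 2 (resB 1 (RatFunc.C : K →+* RatFunc K) b) (W2 (lg (yt K)) (lg (1 - yt K))))
    (by
      intro a b
      simp only [map_add, map_neg, LinearMap.add_apply, smul_add, smul_neg, neg_add]
      abel)

private lemma n7a_d (α : ZP K) : dC 0 1 (ext (kP : P1 K → Cx 3 1 (RatFunc K)) α) =
    n7a_G (QuotientAddGroup.mk α) := by
  have h : ((dC 0 1 : Cx 3 1 (RatFunc K) →ₗ[ℚ] _).toAddMonoidHom.comp
      (ext (kP : P1 K → Cx 3 1 (RatFunc K)))) =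
      (n7a_G (K := K)).comp (QuotientAddGroup.mk' (R 2 K)) := by
    refine hom_ext fun x => ?_
    rw [AddMonoidHom.comp_apply, AddMonoidHom.comp_apply, ext_br]
    change dC 0 1 (kP x) = (2 : ℚ) • PB 2 2 (cl 2 (some (yt K)))
        (-(rT 2 (dT 0 (bb x)))) -
      (2 : ℚ) • PB 2 2 (resB 1 (RatFunc.C : K →+* RatFunc K) (cl 2 x))
        (W2 (lg (yt K)) (lg (1 - yt K)))
    rcases x with _ | x
    · have e1 : (cl 2 (none : P1 K) : B 2 K) = 0 := cl_inf 1
      change dC 0 1 0 = _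
      rw [bb_inf, e1]
      simp only [map_zero, neg_zero, LinearMap.zero_apply, smul_zero, sub_zero]
    · have e1 : -(rT 2 (dT 0 (bb (some x : P1 K)))) =
          W2 (lg (RatFunc.C x : RatFunc K)) (lg (1 - RatFunc.C x)) := by
        have h1 : rU (l1P (some x)) = lg (1 - RatFunc.C x : RatFunc K) := by
          rw [l1P_some, rU, resU_lg, map_sub, map_one]
        have h2 : rU (lgP (some x)) = lg (RatFunc.C x : RatFunc K) := by
          rw [lgP_some, rU, resU_lg]
        rw [dT_bb, n7a_rT, h1, h2, W2_swap, neg_neg]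
      have e2 : resB 1 (RatFunc.C : K →+* RatFunc K) (cl 2 (some x)) =
          cl 2 (some (RatFunc.C x)) := resB_cl 1 _ _
      rw [e1, e2]
      exact d_kk x
  exact DFunLike.congr_fun h α

/-- `kk` of a relation in `B_2(K)` -/
theorem kZ_R {α : ZP K} (hα : α ∈ R 2 K) : ext (kP : P1 K → Cx 3 1 (RatFunc K)) α ∈ LW K 0 := by
  refine mem_LW_split (n7a_S31 α) ?_
  rw [n7a_d, (QuotientAddGroup.eq_zero_iff α).2 hα, map_zero]

end NFA
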