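import Pool.Agent.NFA.N7a
import Pool.Agent.NFA.N6

set_option autoImplicit false

/-!
# NFA-N7b: `(t - 1) ∧ t ∧ z` for a cocycle `z`

The map `B_2(K) ⊗ Λ^{j+1} → B_3 ⊗ Λ^{j+2} / LW`, `{x}_2 ⊗ ω ↦ kk x ∧ ω` (`kZ_R`), sends `d z` to
`2 (t - 1) ∧ t ∧ z` (`X_kk`).
-/

noncomputable section

open Polynomial TensorProduct
open scoped Classical

namespace NFA

open Helper14.Gon Helper14.W4 Helper42.LT

universe u v w

variable {K : Type u} [Field K]

private lemma n7_u0 : rT 0 (u0 K) = u0 (RatFunc K) := by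
  rw [u0, u0, dm, dm, rT, resT_toQ]
  congr 1
  rw [resL, exteriorPower.map_apply_ιMulti]
  congr 1
  funext i
  exact i.elim0

/-- right multiplication by constants and constants -/
private lemma n7_rC (n : ℕ) (ω : Tx n K) (y : Cx 3 1 K) :
    rm1 3 n (rT n ω) (rC 1 1 y) = rC 1 (n + 1) (rm1 3 n ω y) := by
  refine Cx_ind (fun y => rm1 3 n (rT n ω) (rC 1 1 y) = rC 1 (n + 1) (rm1 3 n ω y))
    (by simp only [map_zero]) (fun a b ha hb => by simp only [map_add, ha, hb]) (fun x υ => ?_) y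
  refine Tx1_ind (fun υ => rm1 3 n (rT n ω) (rC 1 1 (PB (1 + 2) 1 (cl (1 + 2) x) υ)) =
    rC 1 (n + 1) (rm1 3 n ω (PB (1 + 2) 1 (cl (1 + 2) x) υ))) (by simp only [map_zero])
    (fun a b ha hb => by simp only [map_add, ha, hb]) (fun q v => ?_) υ
  simp only [map_smul]
  rw [rC_PB, rT_wT, n7_u0, rm1_PB, rm1_PB, rC_PB, rT_wT]

private lemma n7_ee (n : ℕ) (ω : Tx n K) (a : K) (y : Cx 3 0 K) :
    ∃ y' : Cx 3 n K, rm1 3 n (rT n ω) (wC 3 0 (ee a) (rC 1 0 y)) = wC 3 n (ee a) (rC 1 n y') := by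
  refine Cx_ind (fun y => ∃ y' : Cx 3 n K, rm1 3 n (rT n ω) (wC 3 0 (ee a) (rC 1 0 y)) =
    wC 3 n (ee a) (rC 1 n y')) ⟨0, by simp only [map_zero]⟩ ?_ (fun x υ => ?_) y
  · rintro b c ⟨b', hb⟩ ⟨c', hc⟩
    exact ⟨b' + c', by simp only [map_add, hb, hc]⟩
  · refine ⟨e0 K υ • PB 3 n (cl 3 x) ω, ?_⟩
    conv_lhs => rw [← e0_inj υ]
    simp only [map_smul]
    rw [rC_PB, n7_u0, wC_PB, rm1_PB, rC_PB, wC_PB]

private lemma n7_LW (n : ℕ) (ω : Tx n K) {z : Cx 3 1 (RatFunc K)} (hz : z ∈ LW K 0) :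
    rm1 3 n (rT n ω) z ∈ LW K n := by
  obtain ⟨x, hx, y, hy, rfl⟩ := Submodule.mem_sup.1 hz
  obtain ⟨_, ⟨w, rfl⟩, _, ⟨y0, rfl⟩, rfl⟩ := Submodule.mem_sup.1 hx
  rw [map_add, map_add]
  refine add_mem (add_mem ?_ ?_) ?_
  · have h := rm1_dC 1 n (rT n ω) w
    rw [h]
    exact Submodule.mem_sup_left (Submodule.mem_sup_left ⟨_, rfl⟩)
  · rw [n7_rC]
    exact Submodule.mem_sup_left (Submodule.mem_sup_right ⟨_, rfl⟩)
  · induction hy using Submodule.span_induction with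
    | mem y hy =>
      obtain ⟨a, y1, rfl⟩ := hy
      obtain ⟨y2, h2⟩ := n7_ee n ω a y1
      rw [h2]
      exact Submodule.mem_sup_right (Submodule.subset_span ⟨a, y2, rfl⟩)
    | zero =>
      rw [map_zero]
      exact zero_mem _
    | add a b _ _ ha hb =>
      rw [map_add]
      exact add_mem (ha (Submodule.mem_sup.2 ⟨_, hx, a, ‹_›, rfl⟩)) (hb (Submodule.mem_sup.2 ⟨_, hx, b, ‹_›, rfl⟩))
    | smul c a _ ha =>
      rw [map_smul]
      exact Submodule.smul_mem _ c (ha (Submodule.mem_sup.2 ⟨_, hx, a, ‹_›, rfl⟩))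

/-- moving a factor to the left -/
private lemma n7_rm (n : ℕ) (v : Additive (RatFunc K)ˣ) (ω : Tx n (RatFunc K))
    (W : Cx 3 1 (RatFunc K)) :
    rm1 3 (n + 1) (wT n v ω) W = - rm2 3 n ω (wC 3 1 v W) := by
  refine Cx_ind (fun W => rm1 3 (n + 1) (wT n v ω) W = - rm2 3 n ω (wC 3 1 v W))
    (by simp only [map_zero, neg_zero]) (fun a b ha hb => by
      simp only [map_add, ha, hb, neg_add]) (fun x υ => ?_) W
  refine Tx1_ind (fun υ => rm1 3 (n + 1) (wT n v ω) (PB 3 1 (cl 3 x) υ) =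
    - rm2 3 n ω (wC 3 1 v (PB 3 1 (cl 3 x) υ))) (by simp only [map_zero, neg_zero])
    (fun a b ha hb => by simp only [map_add, ha, hb, neg_add]) (fun q u => ?_) υ
  simp only [map_smul]
  rw [rm1_PB, wC_PB, rm2_PB, ← smul_neg, ← map_neg, ← wT_wT]

/-- the map `ω ↦ kk x ∧ ω` modulo `LW` -/
private def n7f (j : ℕ) (W : Cx 3 1 (RatFunc K)) :
    Tx (j + 1) K →ₗ[ℚ] Cx 3 (j + 2) (RatFunc K) ⧸ LW K (j + 1) where
  toFun ω := (LW K (j + 1)).mkQ (rm1 3 (j + 1) (rT (j + 1) ω) W)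
  map_add' a b := by rw [map_add, rm1_add, map_add]
  map_smul' q a := by rw [map_smul, rm1_smul, map_smul, RingHom.id_apply]

private lemma n7f_add (j : ℕ) (W W' : Cx 3 1 (RatFunc K)) : n7f j (W + W') = n7f j W + n7f j W' := by
  refine LinearMap.ext fun ω => ?_
  change (LW K (j + 1)).mkQ _ = (LW K (j + 1)).mkQ _ + (LW K (j + 1)).mkQ _
  rw [map_add, map_add]

private def n7g (j : ℕ) : Cx 3 1 (RatFunc K) →+
    (Tx (j + 1) K →ₗ[ℚ] Cx 3 (j + 2) (RatFunc K) ⧸ LW K (j + 1)) :=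
  AddMonoidHom.mk' (n7f j) (n7f_add j)

private lemma n7g_ext (j : ℕ) (α : ZP K) :
    (n7g j) (Helper14.Gon.ext (kP : P1 K → Cx 3 1 (RatFunc K)) α) = Helper14.Gon.ext (fun x => n7f j (kP x)) α := by
  have h : (n7g j).comp (Helper14.Gon.ext (kP : P1 K → Cx 3 1 (RatFunc K))) = Helper14.Gon.ext (fun x => n7f j (kP x)) := by
    refine Finsupp.addHom_ext fun x m => ?_
    rw [AddMonoidHom.comp_apply, ext_single, ext_single, map_zsmul]
    rfl
  exact DFunLike.congr_fun h α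

/-- `{x}_2 ⊗ ω ↦ kk x ∧ ω` -/
private def n7T (j : ℕ) : Cx 2 (j + 1) K →ₗ[ℚ] Cx 3 (j + 2) (RatFunc K) ⧸ LW K (j + 1) :=
  liftC (QuotientAddGroup.lift (R 2 K) (Helper14.Gon.ext (fun x => n7f j (kP x))) (by
    intro α hα
    rw [AddMonoidHom.mem_ker, ← n7g_ext]
    refine LinearMap.ext fun ω => ?_
    change (LW K (j + 1)).mkQ _ = 0
    rw [Submodule.mkQ_apply, Submodule.Quotient.mk_eq_zero]
    exact n7_LW (j + 1) ω (kZ_R hα)))

private lemma n7T_PB (j : ℕ) (x : P1 K) (ω : Tx (j + 1) K) :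
    n7T j (PB 2 (j + 1) (cl 2 x) ω) = (LW K (j + 1)).mkQ (rm1 3 (j + 1) (rT (j + 1) ω) (kP x)) := by
  rw [n7T, liftC_PB]
  change Helper14.Gon.ext (fun x => n7f j (kP x)) (br x) ω = _
  rw [ext_br]
  rfl

private lemma n7_rU_lg (c : K) : rU (lg c) = lg (RatFunc.C c : RatFunc K) := by
  rw [rU, resU_lg]

private lemma n7_ee0 : lg (yt K) = ee (0 : K) := by
  rw [yt, fy, ee, sub_zero, map_one, div_one]

private lemma n7_ee1 (n : ℕ) : wT n (lg (1 - yt K)) = wT n (ee (1 : K)) := by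
  have h : (1 - yt K) = - (RatFunc.X - RatFunc.C (1 : K)) := by
    rw [yt, fy, sub_zero, map_one, div_one, map_zero, sub_zero, neg_sub]
  have h1 : (RatFunc.X - RatFunc.C (1 : K) : RatFunc K) ≠ 0 := by
    rw [← RatFunc.algebraMap_X, ← RatFunc.algebraMap_C, ← map_sub]
    exact RatFunc.algebraMap_ne_zero (X_sub_C_ne_zero (1 : K))
  rw [h, wT_lg_neg n h1, ee]

private lemma n7_main (j : ℕ) (x : P1 K) (ω : Tx j K) :
    n7T j (dC 0 j (PB 3 j (cl 3 x) ω)) = (2 : ℚ) • (LW K (j + 1)).mkQ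
      (wC 3 (j + 1) (ee (1 : K)) (wC 3 j (ee (0 : K)) (rC 1 j (PB 3 j (cl 3 x) ω)))) := by
  have h0 := dC_PB 0 j x ω
  rw [h0, n7T_PB, rT_wT, n7_rm]
  cases x with
  | none =>
    have h1 : cl 3 (none : P1 K) = 0 := cl_inf 2
    have h2 : kP (none : P1 K) = (0 : Cx 3 1 (RatFunc K)) := rfl
    rw [h1, h2]
    simp only [map_zero, LinearMap.zero_apply, neg_zero, smul_zero]
  | some c =>
    have h2 : kP (some c : P1 K) = kk c := rfl
    obtain ⟨w, hw⟩ := X_kk c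
    have h3 := dC_rm1 1 j (rT j ω) w
    rw [hw, map_sub, map_smul] at h3
    have h4 : rm2 3 j (rT j ω) (PB 3 2 (cl 3 (some (RatFunc.C c : RatFunc K)))
        (W2 (lg (yt K)) (lg (1 - yt K)))) =
        - wC 3 (j + 1) (ee (1 : K)) (wC 3 j (ee (0 : K)) (rC 1 j (PB 3 j (cl 3 (some c)) ω))) := by
      rw [W2_apply, rm2_PB, n7_ee0, n7_ee1, wT_wT, map_neg]
      have h5 := rC_PB 1 j (some c) ω
      rw [h5, wC_PB, wC_PB]
      rfl
    have h6 : (LW K (j + 1)).mkQ (dC 1 (j + 1) (rm1 (1 + 3) j (rT j ω) w)) = 0 := by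
      rw [Submodule.mkQ_apply, Submodule.Quotient.mk_eq_zero]
      exact Submodule.mem_sup_left (Submodule.mem_sup_left ⟨_, rfl⟩)
    rw [h3] at h6
    rw [lgP_some, n7_rU_lg, h2, map_neg]
    rw [map_sub, map_smul, sub_eq_zero] at h6
    refine (congrArg Neg.neg h6.symm).trans ?_
    have h7 := congrArg (fun z => -((2 : ℚ) • (LW K (j + 1)).mkQ z)) h4
    refine h7.trans ?_
    rw [map_neg, smul_neg, neg_neg]

theorem tt_mem_LW (j : ℕ) (z : Cx 3 j K) (hz : dC 0 j z = 0) :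
    wC 3 (j + 1) (ee (1 : K)) (wC 3 j (ee (0 : K)) (rC 1 j z)) ∈ LW K (j + 1) := by
  have h : n7T j (dC 0 j z) = (2 : ℚ) • (LW K (j + 1)).mkQ
      (wC 3 (j + 1) (ee (1 : K)) (wC 3 j (ee (0 : K)) (rC 1 j z))) := by
    refine Cx_ind (fun z => n7T j (dC 0 j z) = (2 : ℚ) • (LW K (j + 1)).mkQ
      (wC 3 (j + 1) (ee (1 : K)) (wC 3 j (ee (0 : K)) (rC 1 j z))))
      (by simp only [map_zero, smul_zero]) (fun a b ha hb => by
        simp only [map_add, ha, hb, smul_add]) (fun x ω => n7_main j x ω) z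
  rw [hz, map_zero] at h
  have h2 := (smul_eq_zero.1 h.symm).resolve_left two_ne_zero
  rwa [Submodule.mkQ_apply, Submodule.Quotient.mk_eq_zero] at h2

end NFA
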